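import Mathlib
import Pool.Agent.X114.WM.Energy

/-! Gaussian averages over all the coefficients, and the second moment in `N`. -/

set_option autoImplicit false

namespace Pool.Agent.X114.MV

open Finset MeasureTheory Filter Topology
open Pool.Agent.X114.WM

/-- Gaussian weight -/
noncomputable def Wt (n : ℕ) (l : Fin n → ℝ) : ℝ := ∏ i, Real.exp (-(Real.pi * l i ^ 2))

theorem Wt_pos (n : ℕ) (l : Fin n → ℝ) : 0 < Wt n l := prod_pos fun _ _ => Real.exp_pos _

theorem ph_nonneg (w u : ℝ) : 0 ≤ ph w u := by unfold ph; positivity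

theorem ph_eq_gs {w : ℝ} (hw : 0 < w) (u : ℝ) : ph w u = gs (Real.sqrt w) u := by
  unfold ph gs
  rw [Real.sq_sqrt hw.le]

theorem ph_le {w : ℝ} (hw : 0 < w) (u : ℝ) : ph w u ≤ 1 / Real.sqrt w := by
  unfold ph
  have : Real.exp (-(Real.pi * u ^ 2 / w)) ≤ 1 := by
    rw [Real.exp_le_one_iff, neg_nonpos]
    positivity
  calc _ ≤ 1 / Real.sqrt w * 1 := mul_le_mul_of_nonneg_left this (by positivity)
    _ = _ := mul_one _

theorem continuous_ph (w : ℝ) : Continuous (ph w) := by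
  unfold ph; fun_prop

theorem integrable_Wt (n : ℕ) : Integrable (Wt n) := by
  have h : Integrable (fun x : ℝ => Real.exp (-(Real.pi * x ^ 2))) := by
    have := integrable_exp_neg_mul_sq Real.pi_pos
    refine this.congr (ae_of_all _ fun x => ?_)
    simp only
    congr 1
    ring
  exact Integrable.fintype_prod (ι := Fin n) (f := fun _ x => Real.exp (-(Real.pi * x ^ 2)))
    (μ := fun _ => (volume : Measure ℝ)) fun _ => h

theorem continuous_Wt (n : ℕ) : Continuous (Wt n) := by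
  unfold Wt; fun_prop

theorem integrable_avg (n : ℕ) {w : ℝ} (hw : 0 < w) (u : ℝ) (v : Fin n → ℝ) :
    Integrable (fun l : Fin n → ℝ => Wt n l * ph w (u + ∑ i, l i * v i)) := by
  have hc : Continuous (fun l : Fin n → ℝ => Wt n l * ph w (u + ∑ i, l i * v i)) := by
    apply (continuous_Wt n).mul
    apply (continuous_ph w).comp
    fun_prop
  refine Integrable.mono' ((integrable_Wt n).mul_const (1 / Real.sqrt w)) hc.aestronglyMeasurable
    (ae_of_all _ fun l => ?_)
  rw [Real.norm_of_nonneg (mul_nonneg (Wt_pos n l).le (ph_nonneg _ _))]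
  exact mul_le_mul_of_nonneg_left (ph_le hw _) (Wt_pos n l).le

theorem avg_one {w : ℝ} (hw : 0 < w) (u v : ℝ) :
    ∫ l : ℝ, Real.exp (-(Real.pi * l ^ 2)) * ph w (u + l * v) = ph (w + v ^ 2) u := by
  have h := integral_ph (Real.sqrt_pos.mpr hw) u v
  rw [Real.sq_sqrt hw.le] at h
  rw [← h]
  congr 1
  funext l
  rw [ph_eq_gs hw]

theorem avg (n : ℕ) : ∀ {w : ℝ} (_ : 0 < w) (u : ℝ) (v : Fin n → ℝ),
    ∫ l : Fin n → ℝ, Wt n l * ph w (u + ∑ i, l i * v i) = ph (w + ∑ i, v i ^ 2) u := by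
  induction n with
  | zero =>
    intro w hw u v
    simp [Wt, measureReal_def, volume_pi]
  | succ n ih =>
    intro w hw u v
    have hI := integrable_avg (n + 1) hw u v
    have e0 := ((volume_preserving_piFinSuccAbove (fun _ : Fin (n + 1) => ℝ) 0).symm).integral_comp'
      (g := fun l : Fin (n + 1) → ℝ => Wt (n + 1) l * ph w (u + ∑ i, l i * v i))
    rw [← e0]
    have hI2 := ((volume_preserving_piFinSuccAbove (fun _ : Fin (n + 1) => ℝ) 0).symm).integrable_comp_emb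
      (MeasurableEquiv.measurableEmbedding _)
      (g := fun l : Fin (n + 1) → ℝ => Wt (n + 1) l * ph w (u + ∑ i, l i * v i))
    have hI3 := hI2.mpr hI
    have e1 : ∀ p : ℝ × (Fin n → ℝ),
        (fun l : Fin (n + 1) → ℝ => Wt (n + 1) l * ph w (u + ∑ i, l i * v i))
          ((MeasurableEquiv.piFinSuccAbove (fun _ : Fin (n + 1) => ℝ) 0).symm p) =
        Wt n p.2 * (Real.exp (-(Real.pi * p.1 ^ 2)) *
          ph w ((u + ∑ i, p.2 i * v i.succ) + p.1 * v 0)) := by
      intro p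
      simp only [MeasurableEquiv.piFinSuccAbove_symm_apply, Fin.insertNthEquiv,
            Fin.insertNth_zero, Equiv.coe_fn_mk, Fin.zero_succAbove, cast_eq, Wt,
            Fin.prod_univ_succ, Fin.sum_univ_succ, Fin.cons_succ, Fin.cons_zero]
      have : u + (p.1 * v 0 + ∑ i, p.2 i * v i.succ) = u + ∑ i, p.2 i * v i.succ + p.1 * v 0 := by
        ring
      rw [this]
      ring
    rw [integral_congr_ae (ae_of_all _ e1)]
    have hI4 : Integrable (fun p : ℝ × (Fin n → ℝ) => Wt n p.2 * (Real.exp (-(Real.pi * p.1 ^ 2)) *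
          ph w ((u + ∑ i, p.2 i * v i.succ) + p.1 * v 0))) :=
      hI3.congr (ae_of_all _ e1)
    rw [show (volume : Measure (ℝ × (Fin n → ℝ))) = (volume : Measure ℝ).prod volume from rfl]
      at hI4 ⊢
    rw [integral_prod_symm _ hI4]
    have e2 : ∀ b : Fin n → ℝ, ∫ a : ℝ, Wt n b * (Real.exp (-(Real.pi * a ^ 2)) *
          ph w ((u + ∑ i, b i * v i.succ) + a * v 0)) =
        Wt n b * ph (w + v 0 ^ 2) (u + ∑ i, b i * v i.succ) := by
      intro b
      rw [integral_const_mul, avg_one hw]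
    rw [integral_congr_ae (ae_of_all _ e2), ih (by positivity) u (fun i => v i.succ),
      Fin.sum_univ_succ]
    congr 1
    ring

theorem gs_even (t x : ℝ) : gs t (-x) = gs t x := by unfold gs; rw [neg_sq]

theorem gs_eq_ph {t : ℝ} (ht : 0 < t) (x : ℝ) : gs t x = ph (t ^ 2) x := by
  rw [ph_eq_gs (by positivity), Real.sqrt_sq ht.le]

theorem conv_aux {a b : ℝ} (ha : 0 < a) (z y : ℝ) (x : ℝ) :
    gs a (z - (z + a * x)) * gs b (y - (z + a * x)) =
      (1 / a) * (Real.exp (-(Real.pi * x ^ 2)) * gs b ((y - z) + x * (-a))) := by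
  have e1 : gs a (z - (z + a * x)) = (1 / a) * Real.exp (-(Real.pi * x ^ 2)) := by
    unfold gs
    congr 2
    field_simp
    ring
  rw [e1, show y - (z + a * x) = (y - z) + x * (-a) by ring]
  ring

theorem integrable_conv {a b : ℝ} (ha : 0 < a) (hb : 0 < b) (z y : ℝ) :
    Integrable (fun N : ℝ => gs a (z - N) * gs b (y - N)) := by
  have h1 := (integrable_ph hb (y - z) (-a)).const_mul (1 / a)
  have h2 : Integrable (fun x : ℝ => gs a (z - (z + a * x)) * gs b (y - (z + a * x))) :=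
    h1.congr (ae_of_all _ fun x => (conv_aux ha z y x).symm)
  have h3 : Integrable (fun x : ℝ => gs a (z - (z + x)) * gs b (y - (z + x))) :=
    (integrable_comp_mul_left_iff (fun x : ℝ => gs a (z - (z + x)) * gs b (y - (z + x))) ha.ne').mp h2
  have h4 := h3.comp_add_left (-z)
  refine h4.congr (ae_of_all _ fun x => ?_)
  simp only
  rw [show z + (-z + x) = x by ring]

theorem conv {a b : ℝ} (ha : 0 < a) (hb : 0 < b) (z y : ℝ) :
    ∫ N : ℝ, gs a (z - N) * gs b (y - N) = ph (a ^ 2 + b ^ 2) (z - y) := by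
  have h1 : ∫ x : ℝ, gs a (z - (z + a * x)) * gs b (y - (z + a * x)) =
      (1 / a) * ph (b ^ 2 + (-a) ^ 2) (y - z) := by
    rw [integral_congr_ae (ae_of_all _ fun x => conv_aux ha z y x), integral_const_mul,
      integral_ph hb]
  have h2 := MeasureTheory.Measure.integral_comp_mul_left
    (fun x : ℝ => gs a (z - (z + x)) * gs b (y - (z + x))) a
  rw [h1] at h2
  have h3 := integral_add_left_eq_self (fun x : ℝ => gs a (z - x) * gs b (y - x)) z (μ := volume)
  rw [h3, abs_of_pos (by positivity), smul_eq_mul] at h2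
  have h4 : ∫ N : ℝ, gs a (z - N) * gs b (y - N) = ph (b ^ 2 + (-a) ^ 2) (y - z) := by
    have : a * ((1 / a) * ph (b ^ 2 + (-a) ^ 2) (y - z)) =
        a * (a⁻¹ * ∫ (x : ℝ), gs a (z - x) * gs b (y - x)) := by rw [h2]
    rw [← mul_assoc, mul_one_div_cancel ha.ne', one_mul, ← mul_assoc,
      mul_inv_cancel₀ ha.ne', one_mul] at this
    exact this.symm
  rw [h4]
  unfold ph
  rw [show b ^ 2 + (-a) ^ 2 = a ^ 2 + b ^ 2 by ring, show (y - z) ^ 2 = (z - y) ^ 2 by ring]

/-- the kernel of the second moment -/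
noncomputable def Kr (τ H u : ℝ) : ℝ := ph (2 * τ ^ 2) u - 2 * ph (τ ^ 2 + H ^ 2) u + ph (2 * H ^ 2) u

theorem second_moment {ι : Type*} (s : Finset ι) (z : ι → ℝ) {τ H : ℝ} (hτ : 0 < τ) (hH : 0 < H) :
    Integrable (fun N : ℝ => (∑ x ∈ s, (gs τ (z x - N) - gs H (z x - N))) ^ 2) ∧
    ∫ N : ℝ, (∑ x ∈ s, (gs τ (z x - N) - gs H (z x - N))) ^ 2 =
      ∑ x ∈ s, ∑ y ∈ s, Kr τ H (z x - z y) := by
  have e1 : ∀ N : ℝ, (∑ x ∈ s, (gs τ (z x - N) - gs H (z x - N))) ^ 2 =
      ∑ x ∈ s, ∑ y ∈ s, ((gs τ (z x - N) * gs τ (z y - N) - gs τ (z x - N) * gs H (z y - N)) -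
        (gs H (z x - N) * gs τ (z y - N) - gs H (z x - N) * gs H (z y - N))) := by
    intro N
    rw [sq, sum_mul_sum]
    refine sum_congr rfl fun x _ => sum_congr rfl fun y _ => ?_
    ring
  have hi : ∀ x y : ι, Integrable (fun N : ℝ =>
      ((gs τ (z x - N) * gs τ (z y - N) - gs τ (z x - N) * gs H (z y - N)) -
        (gs H (z x - N) * gs τ (z y - N) - gs H (z x - N) * gs H (z y - N)))) := fun x y =>
    ((integrable_conv hτ hτ _ _).sub (integrable_conv hτ hH _ _)).sub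
      ((integrable_conv hH hτ _ _).sub (integrable_conv hH hH _ _))
  have hi2 := integrable_finsetSum s fun x (_ : x ∈ s) => integrable_finsetSum s
    fun y (_ : y ∈ s) => hi x y
  refine ⟨hi2.congr (ae_of_all _ fun N => (e1 N).symm), ?_⟩
  rw [integral_congr_ae (ae_of_all _ e1)]
  rw [integral_finsetSum _ fun x _ => integrable_finsetSum _ fun y _ => hi x y]
  refine sum_congr rfl fun x _ => ?_
  rw [integral_finsetSum _ fun y _ => hi x y]
  refine sum_congr rfl fun y _ => ?_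
  have hA : Integrable (fun N : ℝ => gs τ (z x - N) * gs τ (z y - N) -
      gs τ (z x - N) * gs H (z y - N)) := (integrable_conv hτ hτ _ _).sub (integrable_conv hτ hH _ _)
  have hB : Integrable (fun N : ℝ => gs H (z x - N) * gs τ (z y - N) -
      gs H (z x - N) * gs H (z y - N)) := (integrable_conv hH hτ _ _).sub (integrable_conv hH hH _ _)
  rw [integral_sub hA hB, integral_sub (integrable_conv hτ hτ _ _) (integrable_conv hτ hH _ _),
    integral_sub (integrable_conv hH hτ _ _) (integrable_conv hH hH _ _),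
    conv hτ hτ, conv hτ hH, conv hH hτ, conv hH hH]
  unfold Kr
  rw [show τ ^ 2 + τ ^ 2 = 2 * τ ^ 2 by ring, show H ^ 2 + H ^ 2 = 2 * H ^ 2 by ring,
    show H ^ 2 + τ ^ 2 = τ ^ 2 + H ^ 2 by ring]
  ring

/-- the averaged kernel -/
noncomputable def Dk (τ H V : ℝ) : ℝ :=
  1 / Real.sqrt (2 * τ ^ 2 + V) - 2 * (1 / Real.sqrt (τ ^ 2 + H ^ 2 + V)) +
    1 / Real.sqrt (2 * H ^ 2 + V)

theorem integrable_Kr (n : ℕ) {τ H : ℝ} (hτ : 0 < τ) (hH : 0 < H) (v : Fin n → ℝ) :
    Integrable (fun l : Fin n → ℝ => Wt n l * Kr τ H (∑ i, l i * v i)) := by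
  have h1 := integrable_avg n (w := 2 * τ ^ 2) (by positivity) 0 v
  have h2 := (integrable_avg n (w := τ ^ 2 + H ^ 2) (by positivity) 0 v).const_mul 2
  have h3 := integrable_avg n (w := 2 * H ^ 2) (by positivity) 0 v
  refine ((h1.sub h2).add h3).congr (ae_of_all _ fun l => ?_)
  simp only [Pi.add_apply, Pi.sub_apply, zero_add]
  unfold Kr
  ring

theorem integral_Kr (n : ℕ) {τ H : ℝ} (hτ : 0 < τ) (hH : 0 < H) (v : Fin n → ℝ) :
    ∫ l : Fin n → ℝ, Wt n l * Kr τ H (∑ i, l i * v i) = Dk τ H (∑ i, v i ^ 2) := by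
  have h1 := integrable_avg n (w := 2 * τ ^ 2) (by positivity) 0 v
  have h2 := (integrable_avg n (w := τ ^ 2 + H ^ 2) (by positivity) 0 v).const_mul 2
  have h3 := integrable_avg n (w := 2 * H ^ 2) (by positivity) 0 v
  have e : ∀ l : Fin n → ℝ, Wt n l * Kr τ H (∑ i, l i * v i) =
      (Wt n l * ph (2 * τ ^ 2) (0 + ∑ i, l i * v i) -
        2 * (Wt n l * ph (τ ^ 2 + H ^ 2) (0 + ∑ i, l i * v i))) +
        Wt n l * ph (2 * H ^ 2) (0 + ∑ i, l i * v i) := by
    intro l
    rw [zero_add]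
    unfold Kr
    ring
  have p0 : ∀ w : ℝ, ph w 0 = 1 / Real.sqrt w := by
    intro w
    unfold ph
    simp
  have h12 : Integrable (fun l : Fin n → ℝ => Wt n l * ph (2 * τ ^ 2) (0 + ∑ i, l i * v i) -
        2 * (Wt n l * ph (τ ^ 2 + H ^ 2) (0 + ∑ i, l i * v i))) := h1.sub h2
  rw [integral_congr_ae (ae_of_all _ e), integral_add h12 h3, integral_sub h1 h2,
    integral_const_mul, avg n (by positivity), avg n (by positivity), avg n (by positivity),
    p0, p0, p0]
  rfl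

theorem Dk_le_zero {τ H : ℝ} (hτ : 0 < τ) (hH : τ ≤ H) : Dk τ H 0 ≤ 1 / τ := by
  have hH0 : 0 < H := lt_of_lt_of_le hτ hH
  unfold Dk
  rw [add_zero, add_zero, add_zero]
  have h1 : 1 / Real.sqrt (2 * τ ^ 2) ≤ 1 / τ := by
    apply one_div_le_one_div_of_le hτ
    apply Real.le_sqrt_of_sq_le
    nlinarith [sq_nonneg τ]
  have h2 : 1 / Real.sqrt (2 * H ^ 2) ≤ 1 / Real.sqrt (τ ^ 2 + H ^ 2) := by
    apply one_div_le_one_div_of_le (Real.sqrt_pos.mpr (by positivity))
    apply Real.sqrt_le_sqrt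
    have := pow_le_pow_left₀ hτ.le hH 2
    linarith
  have h3 : 0 ≤ 1 / Real.sqrt (τ ^ 2 + H ^ 2) := by positivity
  linarith

theorem Dk_le {τ H V : ℝ} (hτ : 0 < τ) (hH : τ ≤ H) (hV : 0 < V) : Dk τ H V ≤ H / V := by
  have hH0 : 0 < H := lt_of_lt_of_le hτ hH
  have hsq : τ ^ 2 ≤ H ^ 2 := pow_le_pow_left₀ hτ.le hH 2
  unfold Dk
  set a : ℝ := 2 * τ ^ 2 + V with ha
  set b : ℝ := τ ^ 2 + H ^ 2 + V with hb
  have ha0 : 0 < a := by positivity
  have hb0 : 0 < b := by positivity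
  have hab : a ≤ b := by rw [ha, hb]; linarith
  have h2 : 1 / Real.sqrt (2 * H ^ 2 + V) ≤ 1 / Real.sqrt b := by
    apply one_div_le_one_div_of_le (Real.sqrt_pos.mpr hb0)
    apply Real.sqrt_le_sqrt
    rw [hb]; linarith
  have sa : 0 < Real.sqrt a := Real.sqrt_pos.mpr ha0
  have sb : 0 < Real.sqrt b := Real.sqrt_pos.mpr hb0
  have h3 : Real.sqrt b - Real.sqrt a ≤ H := by
    rw [sub_le_iff_le_add]
    rw [Real.sqrt_le_left (by positivity)]
    have h4 : (H + Real.sqrt a) ^ 2 = H ^ 2 + 2 * H * Real.sqrt a + a := by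
      rw [add_sq, Real.sq_sqrt ha0.le]
    rw [h4, ha, hb]
    have : 0 ≤ 2 * H * Real.sqrt (2 * τ ^ 2 + V) := by positivity
    nlinarith [sq_nonneg τ]
  have h5 : 1 / Real.sqrt a - 1 / Real.sqrt b ≤ H / V := by
    have e1 : 1 / Real.sqrt a - 1 / Real.sqrt b =
        (Real.sqrt b - Real.sqrt a) / (Real.sqrt a * Real.sqrt b) := by
      field_simp
    rw [e1]
    have h6 : V ≤ Real.sqrt a * Real.sqrt b := by
      have h7 : Real.sqrt V ≤ Real.sqrt a := Real.sqrt_le_sqrt (by rw [ha]; nlinarith [sq_nonneg τ])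
      have h8 : Real.sqrt V ≤ Real.sqrt b :=
        Real.sqrt_le_sqrt (by rw [hb]; nlinarith [sq_nonneg τ, sq_nonneg H])
      calc V = Real.sqrt V * Real.sqrt V := (Real.mul_self_sqrt hV.le).symm
        _ ≤ Real.sqrt a * Real.sqrt b := mul_le_mul h7 h8 (Real.sqrt_nonneg _) sa.le
    exact div_le_div₀ hH0.le h3 hV h6
  linarith

end Pool.Agent.X114.MV
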