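import Mathlib
import Pool.Agent.X114.MV.Avg
import Pool.Agent.X114.WM.Top

/-! Combinatorial bounds for the first step: lower bound of the wide count, energy of differences. -/

set_option autoImplicit false

namespace Pool.Agent.X114.MV

open Finset MeasureTheory Filter Topology
open Pool.Agent.X114.WM

/-- an `x` with `lam x ^ k` close to `y`. -/
theorem nearx {k P R M : ℕ} (hk : 2 ≤ k) (hM : 1 ≤ M) {lam y : ℝ} (h1 : 1 / (M : ℝ) ≤ lam)
    (h2 : lam ≤ M) (hy1 : (M : ℝ) * (3 * P) ^ k ≤ y) (hy2 : M * y < ((R : ℝ) * P) ^ k)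
    (hP : 1 ≤ P) :
    ∃ x ∈ Ioc P (R * P), |lam * (x : ℝ) ^ k - y| ≤ (M : ℝ) * k * ((R : ℝ) * P) ^ (k - 1) := by
  have hMr : (1 : ℝ) ≤ M := by exact_mod_cast hM
  have hM0 : (0 : ℝ) < M := by linarith
  have hl0 : 0 < lam := lt_of_lt_of_le (by positivity) h1
  have hy0 : 0 ≤ y := le_trans (by positivity) hy1
  have hz0 : 0 ≤ y / lam := by positivity
  obtain ⟨x, hx1, hx2⟩ := exists_kroot hk hz0
  have hz1 : ((3 : ℝ) * P) ^ k ≤ y / lam := by
    rw [le_div_iff₀ hl0]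
    calc ((3 : ℝ) * P) ^ k * lam ≤ (3 * P) ^ k * M := mul_le_mul_of_nonneg_left h2 (by positivity)
      _ = M * (3 * P) ^ k := mul_comm _ _
      _ ≤ y := hy1
  have hz2 : y / lam < ((R : ℝ) * P) ^ k := by
    refine lt_of_le_of_lt ?_ hy2
    rw [div_le_iff₀ hl0]
    have : 1 ≤ M * lam := by
      rw [div_le_iff₀ hM0] at h1
      linarith
    nlinarith
  have h3P : 3 * P ≤ x := by
    have h1 := lt_of_le_of_lt hz1 hx2
    have h2 := lt_of_pow_lt_pow_left₀ k (by positivity) h1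
    have h3 : 3 * P < x + 1 := by exact_mod_cast h2
    omega
  have hRP : x < R * P := by
    have h1 := lt_of_le_of_lt hx1 hz2
    have h2 := lt_of_pow_lt_pow_left₀ k (by positivity) h1
    exact_mod_cast h2
  refine ⟨x, by rw [mem_Ioc]; omega, ?_⟩
  have h4 := abs_pow_sub_pow_le ((x : ℝ) + 1) (x : ℝ) k
  rw [abs_of_nonneg (by positivity : (0 : ℝ) ≤ (x : ℝ) + 1),
    abs_of_nonneg (by positivity : (0 : ℝ) ≤ (x : ℝ)), max_eq_left (by linarith),
    show (x : ℝ) + 1 - x = 1 by ring, abs_one, one_mul] at h4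
  have h5 : (x : ℝ) + 1 ≤ (R : ℝ) * P := by exact_mod_cast hRP
  have h6 : ((x : ℝ) + 1) ^ (k - 1) ≤ ((R : ℝ) * P) ^ (k - 1) :=
    pow_le_pow_left₀ (by positivity) h5 _
  have h7 : y / lam - (x : ℝ) ^ k ≤ k * ((R : ℝ) * P) ^ (k - 1) := by
    have := le_trans (le_abs_self _) h4
    have h8 : (k : ℝ) * ((x : ℝ) + 1) ^ (k - 1) ≤ k * ((R : ℝ) * P) ^ (k - 1) :=
      mul_le_mul_of_nonneg_left h6 (by positivity)
    linarith
  have e1 : lam * (x : ℝ) ^ k - y = -(lam * (y / lam - (x : ℝ) ^ k)) := by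
    field_simp
    ring
  rw [e1, abs_neg, abs_mul, abs_of_pos hl0, abs_of_nonneg (by linarith), mul_assoc]
  exact mul_le_mul h2 h7 (by linarith) hM0.le

theorem wideN {k m P R M : ℕ} (hk : 2 ≤ k) (hM : 1 ≤ M) (hP : 1 ≤ P) {l : Fin (m + 1) → ℝ}
    (hl : ∀ j, 1 / (M : ℝ) ≤ l j ∧ l j ≤ M) {N : ℝ} (hR : 2 ≤ R)
    (hN1 : ((m : ℝ) * M * 2 ^ k + M * 3 ^ k) * P ^ k ≤ N) (hN2 : M * N < ((R : ℝ) * P) ^ k)
    {H : ℝ} (hH : H = (M : ℝ) * k * ((R : ℝ) * P) ^ (k - 1)) :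
    (P : ℝ) ^ m * ((1 / H) * Real.exp (-Real.pi)) ≤
      ∑ x ∈ Fintype.piFinset (fun _ : Fin (m + 1) => Ioc P (R * P)),
        gs H (∑ i, l i * (x i : ℝ) ^ k - N) := by
  have hMr : (1 : ℝ) ≤ M := by exact_mod_cast hM
  have hM0 : (0 : ℝ) < M := by linarith
  have hPr : (1 : ℝ) ≤ P := by exact_mod_cast hP
  have hRr : (2 : ℝ) ≤ R := by exact_mod_cast hR
  have hk0 : (0 : ℝ) < k := by exact_mod_cast (by omega : 0 < k)
  have hH0 : 0 < H := by rw [hH]; positivity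
  have hl0 : ∀ j, 0 < l j := fun j => lt_of_lt_of_le (by positivity) (hl j).1
  have key : ∀ x' : Fin m → ℕ, x' ∈ Fintype.piFinset (fun _ : Fin m => Ioc P (2 * P)) →
      ∃ a ∈ Ioc P (R * P), |l 0 * (a : ℝ) ^ k - (N - ∑ i : Fin m, l i.succ * (x' i : ℝ) ^ k)| ≤ H := by
    intro x' hx'
    rw [Fintype.mem_piFinset] at hx'
    have hs0 : 0 ≤ ∑ i : Fin m, l i.succ * (x' i : ℝ) ^ k :=
      sum_nonneg fun i _ => mul_nonneg (hl0 _).le (by positivity)
    have hs1 : ∑ i : Fin m, l i.succ * (x' i : ℝ) ^ k ≤ (m : ℝ) * M * 2 ^ k * P ^ k := by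
      calc ∑ i : Fin m, l i.succ * (x' i : ℝ) ^ k ≤ ∑ i : Fin m, M * (2 * (P : ℝ)) ^ k := by
            refine sum_le_sum fun i _ => ?_
            have h1 := mem_Ioc.mp (hx' i)
            have h2 : ((x' i : ℕ) : ℝ) ≤ 2 * P := by exact_mod_cast h1.2
            exact mul_le_mul (hl _).2 (pow_le_pow_left₀ (by positivity) h2 k) (by positivity) hM0.le
        _ = (m : ℝ) * M * 2 ^ k * P ^ k := by
            rw [sum_const, card_univ, Fintype.card_fin, nsmul_eq_mul, mul_pow]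
            ring
    have := nearx (k := k) (P := P) (R := R) (M := M) hk hM (hl 0).1 (hl 0).2
      (y := N - ∑ i : Fin m, l i.succ * (x' i : ℝ) ^ k)
      (by rw [mul_pow]; nlinarith) (by nlinarith) hP
    rw [hH]
    exact this
  choose! a ha1 ha2 using key
  set φ : (Fin m → ℕ) → (Fin (m + 1) → ℕ) := fun x' => Fin.cons (a x') x' with hφ
  have hinj : Set.InjOn φ (Fintype.piFinset (fun _ : Fin m => Ioc P (2 * P))) := by
    intro x _ y _ hxy
    have : Fin.tail (φ x) = Fin.tail (φ y) := by rw [hxy]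
    rw [hφ] at this
    simpa only [Fin.tail_cons] using this
  have hsub : (Fintype.piFinset (fun _ : Fin m => Ioc P (2 * P))).image φ ⊆
      Fintype.piFinset (fun _ : Fin (m + 1) => Ioc P (R * P)) := by
    intro x hx
    obtain ⟨x', hx', rfl⟩ := mem_image.mp hx
    rw [Fintype.mem_piFinset]
    intro i
    refine Fin.cases ?_ (fun j => ?_) i
    · rw [hφ]; simp only [Fin.cons_zero]; exact ha1 x' hx'
    · rw [hφ]; simp only [Fin.cons_succ]
      rw [Fintype.mem_piFinset] at hx'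
      have := mem_Ioc.mp (hx' j)
      rw [mem_Ioc]
      exact ⟨this.1, le_trans this.2 (Nat.mul_le_mul_right _ hR)⟩
  calc (P : ℝ) ^ m * ((1 / H) * Real.exp (-Real.pi))
      = ∑ x' ∈ Fintype.piFinset (fun _ : Fin m => Ioc P (2 * P)),
          ((1 / H) * Real.exp (-Real.pi)) := by
        rw [sum_const, Fintype.card_piFinset_const, Nat.card_Ioc, nsmul_eq_mul]
        have : 2 * P - P = P := by omega
        rw [this]
        push_cast
        rfl
    _ ≤ ∑ x' ∈ Fintype.piFinset (fun _ : Fin m => Ioc P (2 * P)),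
          gs H (∑ i, l i * ((φ x') i : ℝ) ^ k - N) := by
        refine sum_le_sum fun x' hx' => gs_lower hH0 ?_
        have h1 := ha2 x' hx'
        rw [Fin.sum_univ_succ, hφ]
        simp only [Fin.cons_zero, Fin.cons_succ]
        have e : l 0 * (a x' : ℝ) ^ k + ∑ i : Fin m, l i.succ * (x' i : ℝ) ^ k - N =
          l 0 * (a x' : ℝ) ^ k - (N - ∑ i : Fin m, l i.succ * (x' i : ℝ) ^ k) := by ring
        rw [e]
        exact h1
    _ = ∑ x ∈ (Fintype.piFinset (fun _ : Fin m => Ioc P (2 * P))).image φ,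
          gs H (∑ i, l i * (x i : ℝ) ^ k - N) := by
        rw [sum_image hinj]
    _ ≤ _ := sum_le_sum_of_subset_of_nonneg hsub fun _ _ _ => (gs_pos hH0 _).le

theorem inv_max_sum {P Y : ℕ} {x : ℕ} (hx : x ∈ Ioc P Y) :
    ∑ y ∈ Ioc P Y, 1 / max 1 |(x : ℝ) - y| ≤ 3 + 2 * Real.log Y := by
  have h := sep_sum (A := Ioc P Y) (B := 1) (X := Y) le_rfl (fun a ha => (mem_Ioc.mp ha).2)
    (fun a _ a' _ hlt => by omega) (f := fun t : ℝ => 1 / max 1 |t|)
    (by
      intro s t hs hst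
      apply one_div_le_one_div_of_le (by positivity)
      apply max_le_max_left
      rw [abs_of_pos hs, abs_of_pos (by linarith)]
      exact hst)
    (fun t => by positivity) hx
  rw [← add_sum_erase _ _ hx]
  simp only [abs_abs] at h
  have e1 : 1 / max 1 |(x : ℝ) - x| = 1 := by simp
  rw [e1]
  have h2 : ∑ i ∈ Icc 1 Y, 1 / max 1 |(i : ℝ) * ((1 : ℕ) : ℝ)| ≤ 1 + Real.log Y := by
    have h3 := harmonic_le_one_add_log Y
    rw [harmonic_eq_sum_Icc] at h3
    push_cast at h3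
    refine le_trans (sum_le_sum fun i hi => ?_) h3
    rw [mem_Icc] at hi
    have hi1 : (1 : ℝ) ≤ i := by exact_mod_cast hi.1
    rw [Nat.cast_one, mul_one, abs_of_pos (by linarith), max_eq_right hi1, one_div]
  linarith

theorem pow_diff_ge {k P x y : ℕ} (hk : 1 ≤ k) (hx : P < x) (hy : P < y) :
    (P : ℝ) ^ (k - 1) * |(x : ℝ) - y| ≤ |(x : ℝ) ^ k - (y : ℝ) ^ k| := by
  have main : ∀ a b : ℝ, (P : ℝ) ≤ a → a ≤ b → (P : ℝ) ^ (k - 1) * (b - a) ≤ b ^ k - a ^ k := by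
    intro a b ha hab
    have hP0 : (0 : ℝ) ≤ P := Nat.cast_nonneg P
    have ha0 : 0 ≤ a := le_trans hP0 ha
    have e1 : b ^ k = b * b ^ (k - 1) := by rw [← pow_succ', show k - 1 + 1 = k by omega]
    have e2 : a ^ k = a * a ^ (k - 1) := by rw [← pow_succ', show k - 1 + 1 = k by omega]
    have h1 : a ^ (k - 1) ≤ b ^ (k - 1) := pow_le_pow_left₀ ha0 hab _
    have h2 : (P : ℝ) ^ (k - 1) ≤ b ^ (k - 1) := pow_le_pow_left₀ hP0 (le_trans ha hab) _
    rw [e1, e2]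
    nlinarith [mul_le_mul_of_nonneg_left h1 ha0,
      mul_le_mul_of_nonneg_right h2 (sub_nonneg.mpr hab)]
  have hxr : (P : ℝ) ≤ x := by exact_mod_cast hx.le
  have hyr : (P : ℝ) ≤ y := by exact_mod_cast hy.le
  rcases le_total (x : ℝ) y with h | h
  · have := main x y hxr h
    rw [abs_sub_comm (x : ℝ) y, abs_sub_comm ((x : ℝ) ^ k), abs_of_nonneg (by linarith)]
    exact le_trans this (le_abs_self _)
  · have := main y x hyr h
    rw [abs_of_nonneg (by linarith : (0 : ℝ) ≤ (x : ℝ) - y)]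
    exact le_trans this (le_abs_self _)

theorem V_ge {k r P : ℕ} (hk : 1 ≤ k) {x y : Fin (r + 2) → ℕ}
    (hx : ∀ i, P < x i) (hy : ∀ i, P < y i) (hxy : x ≠ y) :
    ((P : ℝ) ^ (k - 1)) ^ 2 * (max 1 |(x 0 : ℝ) - y 0| * max 1 |(x 1 : ℝ) - y 1|) ≤
      ∑ i, ((x i : ℝ) ^ k - (y i : ℝ) ^ k) ^ 2 := by
  set Q : ℝ := (P : ℝ) ^ (k - 1) with hQ
  have hQ0 : 0 ≤ Q := by positivity
  set V : ℝ := ∑ i, ((x i : ℝ) ^ k - (y i : ℝ) ^ k) ^ 2 with hV
  have hc : ∀ i, (Q * |(x i : ℝ) - y i|) ^ 2 ≤ V := by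
    intro i
    have h1 := pow_diff_ge hk (hx i) (hy i)
    have h2 : (Q * |(x i : ℝ) - y i|) ^ 2 ≤ |(x i : ℝ) ^ k - (y i : ℝ) ^ k| ^ 2 :=
      pow_le_pow_left₀ (by positivity) h1 2
    rw [sq_abs] at h2
    refine le_trans h2 ?_
    exact single_le_sum (f := fun i => ((x i : ℝ) ^ k - (y i : ℝ) ^ k) ^ 2)
      (fun i _ => sq_nonneg _) (mem_univ i)
  have h1 : Q ^ 2 ≤ V := by
    obtain ⟨i, hi⟩ := Function.ne_iff.mp hxy
    refine le_trans ?_ (hc i)
    have h3 : (1 : ℝ) ≤ |(x i : ℝ) - y i| := by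
      have h4 : (1 : ℤ) ≤ |(x i : ℤ) - y i| := by
        apply Int.one_le_abs
        rw [sub_ne_zero]
        exact_mod_cast hi
      have h5 : ((1 : ℤ) : ℝ) ≤ ((|(x i : ℤ) - y i| : ℤ) : ℝ) := by exact_mod_cast h4
      push_cast at h5
      exact h5
    apply pow_le_pow_left₀ hQ0
    nlinarith
  have hm : ∀ i, (Q * max 1 |(x i : ℝ) - y i|) ^ 2 ≤ V := by
    intro i
    rcases le_total 1 |(x i : ℝ) - y i| with h | h
    · rw [max_eq_right h]; exact hc i
    · rw [max_eq_left h, mul_one]; exact h1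
  have h2 := hm 0
  have h3 := hm 1
  set a := Q * max 1 |(x 0 : ℝ) - y 0| with ha
  set b := Q * max 1 |(x 1 : ℝ) - y 1| with hb
  have e : Q ^ 2 * (max 1 |(x 0 : ℝ) - y 0| * max 1 |(x 1 : ℝ) - y 1|) = a * b := by
    rw [ha, hb]; ring
  rw [e]
  nlinarith [sq_nonneg (a - b)]

theorem Dsum {k r P Y : ℕ} (hk : 1 ≤ k) (hP : 1 ≤ P) (hPY : P ≤ Y) {τ H : ℝ} (hτ : 0 < τ)
    (hH : τ ≤ H) :
    ∑ x ∈ Fintype.piFinset (fun _ : Fin (r + 2) => Ioc P Y),
      ∑ y ∈ Fintype.piFinset (fun _ : Fin (r + 2) => Ioc P Y),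
        Dk τ H (∑ i, ((x i : ℝ) ^ k - (y i : ℝ) ^ k) ^ 2) ≤
      (Y : ℝ) ^ (r + 2) * (1 / τ + H / ((P : ℝ) ^ (k - 1)) ^ 2 * (3 + 2 * Real.log Y) ^ 2 *
        (Y : ℝ) ^ r) := by
  have hH0 : 0 < H := lt_of_lt_of_le hτ hH
  have hPr : (1 : ℝ) ≤ P := by exact_mod_cast hP
  have hY1 : 1 ≤ Y := le_trans hP hPY
  have hlog : 0 ≤ Real.log Y := Real.log_natCast_nonneg Y
  set 𝓧 := Fintype.piFinset (fun _ : Fin (r + 2) => Ioc P Y) with hX
  have hcardX : ((Ioc P Y).card : ℝ) ≤ Y := by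
    rw [Nat.card_Ioc]
    exact_mod_cast Nat.sub_le _ _
  have hcard : (𝓧.card : ℝ) ≤ (Y : ℝ) ^ (r + 2) := by
    rw [hX, Fintype.card_piFinset_const]
    push_cast
    exact pow_le_pow_left₀ (by positivity) hcardX _
  set ℓ : ℝ := 3 + 2 * Real.log Y with hℓ
  have hℓ0 : 0 ≤ ℓ := by rw [hℓ]; positivity
  set Q2 : ℝ := ((P : ℝ) ^ (k - 1)) ^ 2 with hQ2
  have hQ20 : 0 < Q2 := by rw [hQ2]; positivity
  have key : ∀ x ∈ 𝓧, ∑ y ∈ 𝓧, Dk τ H (∑ i, ((x i : ℝ) ^ k - (y i : ℝ) ^ k) ^ 2) ≤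
      1 / τ + H / Q2 * ℓ ^ 2 * (Y : ℝ) ^ r := by
    intro x hx
    have hx' := hx
    rw [hX, Fintype.mem_piFinset] at hx'
    rw [← add_sum_erase _ _ hx]
    have h0 : Dk τ H (∑ i, ((x i : ℝ) ^ k - (x i : ℝ) ^ k) ^ 2) ≤ 1 / τ := by
      have : ∑ i, ((x i : ℝ) ^ k - (x i : ℝ) ^ k) ^ 2 = 0 := by simp
      rw [this]
      exact Dk_le_zero hτ hH
    have h1 : ∑ y ∈ 𝓧.erase x, Dk τ H (∑ i, ((x i : ℝ) ^ k - (y i : ℝ) ^ k) ^ 2) ≤
        ∑ y ∈ 𝓧, H / Q2 * (1 / max 1 |(x 0 : ℝ) - y 0| * (1 / max 1 |(x 1 : ℝ) - y 1|)) := by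
      refine le_trans (sum_le_sum (g := fun y : Fin (r + 2) → ℕ =>
        H / Q2 * (1 / max 1 |(x 0 : ℝ) - y 0| * (1 / max 1 |(x 1 : ℝ) - y 1|))) fun y hy => ?_)
        (sum_le_sum_of_subset_of_nonneg (erase_subset _ _) fun y _ _ => by positivity)
      rw [mem_erase] at hy
      have hy' := hy.2
      rw [hX, Fintype.mem_piFinset] at hy'
      have hV := V_ge hk (fun i => (mem_Ioc.mp (hx' i)).1)
        (fun i => (mem_Ioc.mp (hy' i)).1) hy.1.symm
      have hV0 : 0 < ∑ i, ((x i : ℝ) ^ k - (y i : ℝ) ^ k) ^ 2 :=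
        lt_of_lt_of_le (by positivity) hV
      refine le_trans (Dk_le hτ hH hV0) ?_
      have h2 : H / (∑ i, ((x i : ℝ) ^ k - (y i : ℝ) ^ k) ^ 2) ≤
          H / (Q2 * (max 1 |(x 0 : ℝ) - y 0| * max 1 |(x 1 : ℝ) - y 1|)) := by
        apply div_le_div_of_nonneg_left hH0.le (by positivity) hV
      refine le_trans h2 (le_of_eq ?_)
      field_simp
    have h2 : ∑ y ∈ 𝓧, (1 / max 1 |(x 0 : ℝ) - y 0| * (1 / max 1 |(x 1 : ℝ) - y 1|)) ≤
        ℓ ^ 2 * (Y : ℝ) ^ r := by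
      set φ : Fin (r + 2) → ℕ → ℝ := fun i j =>
        if i = 0 then 1 / max 1 |(x 0 : ℝ) - j| else
          if i = 1 then 1 / max 1 |(x 1 : ℝ) - j| else 1 with hφ
      have e1 : ∀ y ∈ 𝓧, (1 / max 1 |(x 0 : ℝ) - y 0| * (1 / max 1 |(x 1 : ℝ) - y 1|)) =
          ∏ i, φ i (y i) := by
        intro y _
        rw [Fin.prod_univ_succ, Fin.prod_univ_succ]
        have e2 : ∏ i : Fin r, φ i.succ.succ (y i.succ.succ) = 1 := by
          apply prod_eq_one
          intro i _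
          rw [hφ]
          have h1 : i.succ.succ ≠ 0 := Fin.succ_ne_zero _
          have h2 : i.succ.succ ≠ 1 := by
            intro h
            have h3 : i.succ.succ = (0 : Fin (r + 1)).succ := by rw [h]; rfl
            exact Fin.succ_ne_zero _ (Fin.succ_injective _ h3)
          simp only [h1, h2, if_false]
        rw [e2, mul_one]
        rfl
      rw [sum_congr rfl e1, hX, ← prod_univ_sum, Fin.prod_univ_succ, Fin.prod_univ_succ]
      have f0 : ∑ j ∈ Ioc P Y, φ 0 j ≤ ℓ := by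
        have := inv_max_sum (hx' 0)
        refine le_trans (le_of_eq (sum_congr rfl fun j _ => ?_)) this
        rw [hφ]; simp
      have f1 : ∑ j ∈ Ioc P Y, φ (Fin.succ 0) j ≤ ℓ := by
        have := inv_max_sum (hx' 1)
        refine le_trans (le_of_eq (sum_congr rfl fun j _ => ?_)) this
        rw [hφ]
        simp
      have f2 : ∏ i : Fin r, ∑ j ∈ Ioc P Y, φ i.succ.succ j ≤ (Y : ℝ) ^ r := by
        calc _ ≤ ∏ i : Fin r, (Y : ℝ) := by
              apply Finset.prod_le_prod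
              · intro i _
                apply sum_nonneg
                intro j _
                rw [hφ]
                simp only
                split_ifs <;> positivity
              · intro i _
                have : ∑ j ∈ Ioc P Y, φ i.succ.succ j = ((Ioc P Y).card : ℝ) := by
                  rw [card_eq_sum_ones, Nat.cast_sum]
                  refine sum_congr rfl fun j _ => ?_
                  rw [hφ]
                  have h1 : i.succ.succ ≠ 0 := Fin.succ_ne_zero _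
                  have h2 : i.succ.succ ≠ 1 := by
                    intro h
                    have h3 : i.succ.succ = (0 : Fin (r + 1)).succ := by rw [h]; rfl
                    exact Fin.succ_ne_zero _ (Fin.succ_injective _ h3)
                  simp only [h1, h2, if_false, Nat.cast_one]
                rw [this]
                exact hcardX
          _ = _ := by rw [prod_const, card_univ, Fintype.card_fin]
      have g0 : 0 ≤ ∑ j ∈ Ioc P Y, φ 0 j := by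
        apply sum_nonneg
        intro j _
        rw [hφ]; simp only; split_ifs <;> positivity
      have g1 : 0 ≤ ∑ j ∈ Ioc P Y, φ (Fin.succ 0) j := by
        apply sum_nonneg
        intro j _
        rw [hφ]; simp only; split_ifs <;> positivity
      have g2 : 0 ≤ ∏ i : Fin r, ∑ j ∈ Ioc P Y, φ i.succ.succ j := by
        apply prod_nonneg
        intro i _
        apply sum_nonneg
        intro j _
        rw [hφ]; simp only; split_ifs <;> positivity
      calc _ ≤ ℓ * (ℓ * (Y : ℝ) ^ r) :=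
            mul_le_mul f0 (mul_le_mul f1 f2 g2 hℓ0) (mul_nonneg g1 g2) hℓ0
        _ = _ := by ring
    rw [← mul_sum] at h1
    have h3 := mul_le_mul_of_nonneg_left h2 (by positivity : 0 ≤ H / Q2)
    have e3 : H / Q2 * (ℓ ^ 2 * (Y : ℝ) ^ r) = H / Q2 * ℓ ^ 2 * (Y : ℝ) ^ r := by ring
    linarith
  calc _ ≤ ∑ x ∈ 𝓧, (1 / τ + H / Q2 * ℓ ^ 2 * (Y : ℝ) ^ r) := sum_le_sum key
    _ = (𝓧.card : ℝ) * (1 / τ + H / Q2 * ℓ ^ 2 * (Y : ℝ) ^ r) := by
        rw [sum_const, nsmul_eq_mul]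
    _ ≤ _ := mul_le_mul_of_nonneg_right hcard (by positivity)

end Pool.Agent.X114.MV
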