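import Mathlib
import Pool.Agent.X114.MV.Comb
import Pool.Agent.X114.WM.Stage

/-! First step: `k + 1` variables, exceptional set of measure `X ^ (1 - η)`, `η < 1/k - κ`. -/

set_option autoImplicit false

namespace Pool.Agent.X114.MV

open Finset MeasureTheory Filter Topology
open Pool.Agent.X114.WM

/-- The real `N ≥ 1` which are not within `c N ^ (-κ)` of a value of `∑ l_i x_i ^ k` at positive
integers. -/
def Exc (k n : ℕ) (κ c : ℝ) (l : Fin n → ℝ) : Set ℝ :=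
  {N : ℝ | 1 ≤ N ∧ ∀ x : Fin n → ℕ, (∀ i, 0 < x i) → c * N ^ (-κ) ≤ |∑ i, l i * (x i : ℝ) ^ k - N|}

/-- the second moment -/
noncomputable def Jn (k n : ℕ) (τ H : ℝ) (X : Finset (Fin n → ℕ)) (l : Fin n → ℝ) : ℝ :=
  ∑ x ∈ X, ∑ y ∈ X, Kr τ H (∑ i, l i * ((x i : ℝ) ^ k - (y i : ℝ) ^ k))

theorem Jn_eq (k n : ℕ) {τ H : ℝ} (hτ : 0 < τ) (hH : 0 < H) (X : Finset (Fin n → ℕ))
    (l : Fin n → ℝ) :
    Integrable (fun N : ℝ => (∑ x ∈ X, (gs τ (∑ i, l i * (x i : ℝ) ^ k - N) -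
      gs H (∑ i, l i * (x i : ℝ) ^ k - N))) ^ 2) ∧
    ∫ N : ℝ, (∑ x ∈ X, (gs τ (∑ i, l i * (x i : ℝ) ^ k - N) -
      gs H (∑ i, l i * (x i : ℝ) ^ k - N))) ^ 2 = Jn k n τ H X l := by
  have h := second_moment X (fun x : Fin n → ℕ => ∑ i, l i * (x i : ℝ) ^ k) hτ hH
  refine ⟨h.1, h.2.trans ?_⟩
  unfold Jn
  refine sum_congr rfl fun x _ => sum_congr rfl fun y _ => ?_
  congr 1
  rw [← sum_sub_distrib]
  exact sum_congr rfl fun i _ => by ring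

theorem Jn_nonneg (k n : ℕ) {τ H : ℝ} (hτ : 0 < τ) (hH : 0 < H) (X : Finset (Fin n → ℕ))
    (l : Fin n → ℝ) : 0 ≤ Jn k n τ H X l := by
  rw [← (Jn_eq k n hτ hH X l).2]
  exact integral_nonneg fun N => sq_nonneg _

theorem integral_Jn (k n : ℕ) {τ H : ℝ} (hτ : 0 < τ) (hH : 0 < H) (X : Finset (Fin n → ℕ)) :
    Integrable (fun l : Fin n → ℝ => Wt n l * Jn k n τ H X l) ∧
    ∫ l : Fin n → ℝ, Wt n l * Jn k n τ H X l =
      ∑ x ∈ X, ∑ y ∈ X, Dk τ H (∑ i, ((x i : ℝ) ^ k - (y i : ℝ) ^ k) ^ 2) := by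
  have e : ∀ l : Fin n → ℝ, Wt n l * Jn k n τ H X l = ∑ x ∈ X, ∑ y ∈ X,
      Wt n l * Kr τ H (∑ i, l i * ((x i : ℝ) ^ k - (y i : ℝ) ^ k)) := by
    intro l
    unfold Jn
    rw [mul_sum]
    refine sum_congr rfl fun x _ => ?_
    rw [mul_sum]
  have hi : ∀ x y : Fin n → ℕ, Integrable (fun l : Fin n → ℝ =>
      Wt n l * Kr τ H (∑ i, l i * ((x i : ℝ) ^ k - (y i : ℝ) ^ k))) := fun x y =>
    integrable_Kr n hτ hH _
  refine ⟨(integrable_finsetSum _ fun x _ => integrable_finsetSum _ fun y _ => hi x y).congr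
    (ae_of_all _ fun l => (e l).symm), ?_⟩
  rw [integral_congr_ae (ae_of_all _ e),
    integral_finsetSum _ fun x _ => integrable_finsetSum _ fun y _ => hi x y]
  refine sum_congr rfl fun x _ => ?_
  rw [integral_finsetSum _ fun y _ => hi x y]
  exact sum_congr rfl fun y _ => integral_Kr n hτ hH _

theorem cheb {f : ℝ → ℝ} (hf : Integrable (fun N => f N ^ 2)) {t : ℝ} (ht : 0 < t) :
    volume {N : ℝ | t ≤ |f N|} ≤ ENNReal.ofReal ((∫ N, f N ^ 2) / t ^ 2) := by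
  have h1 : {N : ℝ | t ≤ |f N|} ⊆ {N : ℝ | ENNReal.ofReal (t ^ 2) ≤ ENNReal.ofReal (f N ^ 2)} := by
    intro N hN
    rw [Set.mem_ofPred_eq] at hN ⊢
    apply ENNReal.ofReal_le_ofReal
    rw [← sq_abs (f N)]
    exact pow_le_pow_left₀ ht.le hN 2
  refine le_trans (measure_mono h1) ?_
  have h2 := meas_ge_le_lintegral_div (μ := volume) (f := fun N : ℝ => ENNReal.ofReal (f N ^ 2))
    hf.aestronglyMeasurable.aemeasurable.ennreal_ofReal (ε := ENNReal.ofReal (t ^ 2))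
    (by rw [Ne, ENNReal.ofReal_eq_zero, not_le]; positivity) ENNReal.ofReal_ne_top
  refine le_trans h2 ?_
  rw [← ofReal_integral_eq_lintegral_ofReal hf (ae_of_all _ fun N => sq_nonneg _),
    ENNReal.ofReal_div_of_pos (by positivity)]

theorem narrowN {n : ℕ} {X : Finset (Fin n → ℕ)} {z : (Fin n → ℕ) → ℝ} {τ ρ N : ℝ} (hτ : 0 < τ)
    (hρ : 0 ≤ ρ) (h : ∀ x ∈ X, ρ ≤ |z x - N|) :
    ∑ x ∈ X, gs τ (z x - N) ≤ (X.card : ℝ) * ((1 / τ) * Real.exp (-(Real.pi * (ρ / τ) ^ 2))) := by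
  calc _ ≤ ∑ x ∈ X, ((1 / τ) * Real.exp (-(Real.pi * (ρ / τ) ^ 2))) := by
        refine sum_le_sum fun x hx => ?_
        have h1 := h x hx
        unfold gs
        apply mul_le_mul_of_nonneg_left _ (by positivity)
        rw [Real.exp_le_exp, neg_le_neg_iff, div_pow, mul_div_assoc]
        apply mul_le_mul_of_nonneg_left _ Real.pi_pos.le
        apply div_le_div_of_nonneg_right _ (by positivity)
        rw [← sq_abs (z x - N)]
        exact pow_le_pow_left₀ hρ h1 2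
    _ = _ := by rw [sum_const, nsmul_eq_mul]

theorem stage1 {r M : ℕ} (hr : 1 ≤ r) (hM : 1 ≤ M) {κ c : ℝ} (hκ : 0 ≤ κ) (hc : 0 < c) (η : ℝ) :
    ∃ D : ℝ, ∃ i0 : ℕ, ∀ i : ℕ, i0 ≤ i → ∃ f : (Fin (r + 2) → ℝ) → ℝ, (∀ l, 0 ≤ f l) ∧
      Integrable f ∧
      ∫ l, f l ≤ D * (((i : ℝ) + 1) ^ 2 *
        ((2 : ℝ) ^ i) ^ (-(1 / ((r + 1 : ℕ) : ℝ) - κ - η))) ∧
      ∀ l : Fin (r + 2) → ℝ, (∀ j, 1 / (M : ℝ) ≤ l j ∧ l j ≤ M) → f l ≤ Wt (r + 2) l →
        volume (Exc (r + 1) (r + 2) κ c l ∩ Set.Icc ((2 : ℝ) ^ i) (2 ^ (i + 1))) ≤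
          ENNReal.ofReal (((2 : ℝ) ^ i) ^ (1 - η)) := by
  have hk : 2 ≤ r + 1 := by omega
  have hMr : (1 : ℝ) ≤ M := by exact_mod_cast hM
  have hM0 : (0 : ℝ) < M := by linarith
  obtain ⟨C, hC⟩ : ∃ C : ℕ, C = (r + 1) * M * 2 ^ (r + 1) + M * 3 ^ (r + 1) := ⟨_, rfl⟩
  have hC1 : 1 ≤ C := by
    rw [hC]
    have : 1 ≤ M * 3 ^ (r + 1) := Nat.mul_pos hM (by positivity)
    omega
  have hCr : (1 : ℝ) ≤ C := by exact_mod_cast hC1
  have hC0 : (0 : ℝ) < C := by linarith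
  obtain ⟨R, hR⟩ : ∃ R : ℕ, R = 4 * M * C := ⟨_, rfl⟩
  have hR2 : 2 ≤ R := by
    rw [hR]
    have : 1 ≤ M * C := Nat.mul_pos hM hC1
    nlinarith
  have hRr : (2 : ℝ) ≤ R := by exact_mod_cast hR2
  have hR0 : (0 : ℝ) < R := by linarith
  have hRpow : 2 * (M : ℝ) * C * 2 ^ (r + 1) ≤ (R : ℝ) ^ (r + 1) := by
    have h1 : (1 : ℝ) ≤ M * C := by nlinarith
    have h2 : (R : ℝ) = 4 * (M * C) := by rw [hR]; push_cast; ring
    rw [h2, mul_pow]
    have h3 : (M : ℝ) * C ≤ (M * C) ^ (r + 1) := le_self_pow₀ h1 (by omega)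
    have h4 : (2 : ℝ) * 2 ^ (r + 1) ≤ 4 ^ (r + 1) := by
      have : (4 : ℝ) ^ (r + 1) = 2 ^ (r + 1) * 2 ^ (r + 1) := by
        rw [← mul_pow]; norm_num
      rw [this]
      apply mul_le_mul_of_nonneg_right _ (by positivity)
      calc (2 : ℝ) = 2 ^ 1 := by norm_num
        _ ≤ 2 ^ (r + 1) := pow_le_pow_right₀ (by norm_num) (by omega)
    calc 2 * (M : ℝ) * C * 2 ^ (r + 1) = (2 * 2 ^ (r + 1)) * (M * C) := by ring
      _ ≤ 4 ^ (r + 1) * (M * C) ^ (r + 1) := mul_le_mul h4 h3 (by positivity) (by positivity)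
  set A0 : ℝ := M * ((r + 1 : ℕ) : ℝ) * (R : ℝ) ^ r * Real.exp Real.pi with hA0
  have hA00 : 0 < A0 := by rw [hA0]; positivity
  set B0 : ℝ := M * ((r + 1 : ℕ) : ℝ) * ((R : ℝ) ^ r) ^ 2 with hB0
  have hB00 : 0 < B0 := by rw [hB0]; positivity
  have hlR : 0 ≤ Real.log R := Real.log_nonneg (by linarith)
  set D3 : ℝ := 5 + 2 * Real.log R with hD3
  have hD30 : 0 < D3 := by rw [hD3]; positivity
  refine ⟨4 * A0 ^ 2 * (R : ℝ) ^ (r + 2) * ((2 : ℝ) ^ κ / c + B0 * D3 ^ 2), ?_⟩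
  have ev1 := small_exp (1 + κ) (2 * A0 * (R : ℝ) ^ (r + 2) * ((2 : ℝ) ^ κ / c))
  have ev2 : ∀ᶠ i : ℕ in atTop, (C : ℝ) * ((⌈c⌉₊ : ℝ) + 2) ^ (r + 1) ≤ (2 : ℝ) ^ i :=
    (tendsto_pow_atTop_atTop_of_one_lt (by norm_num : (1 : ℝ) < 2)).eventually_ge_atTop _
  obtain ⟨i0, hi0⟩ := eventually_atTop.mp (ev1.and ev2)
  refine ⟨i0, fun i hi => ?_⟩
  obtain ⟨hs1, hs2⟩ := hi0 i hi
  set q : ℝ := (2 : ℝ) ^ i with hq
  have hq1 : 1 ≤ q := one_le_pow₀ (by norm_num)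
  have hq0 : 0 < q := by linarith
  obtain ⟨P, hP1, hP2⟩ := exists_kroot hk (y := q / C) (by positivity)
  have hPc : (⌈c⌉₊ : ℝ) + 2 < (P : ℝ) + 1 := by
    have h1 : ((⌈c⌉₊ : ℝ) + 2) ^ (r + 1) ≤ q / C := by
      rw [le_div_iff₀ hC0, mul_comm]; exact hs2
    exact lt_of_pow_lt_pow_left₀ _ (by positivity) (lt_of_le_of_lt h1 hP2)
  have hcle : c ≤ P := by
    have := Nat.le_ceil c
    linarith
  have hP1' : 1 ≤ P := by
    have h1 : (0 : ℝ) ≤ (⌈c⌉₊ : ℝ) := Nat.cast_nonneg _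
    have : (1 : ℝ) ≤ P := by linarith
    exact_mod_cast this
  have hPr : (1 : ℝ) ≤ P := by exact_mod_cast hP1'
  have hPr0 : (0 : ℝ) < P := by linarith
  have hPq : (P : ℝ) ^ (r + 1) ≤ q := le_trans hP1 (div_le_self hq0.le hCr)
  -- parameters
  set H : ℝ := (M : ℝ) * ((r + 1 : ℕ) : ℝ) * ((R : ℝ) * P) ^ (r + 1 - 1) with hH
  have hr1 : r + 1 - 1 = r := by omega
  have hHP : (P : ℝ) ≤ H := by
    rw [hH, hr1]
    have h1 : (P : ℝ) ≤ R * P := by nlinarith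
    have h2 : (R : ℝ) * P ≤ (R * P) ^ r := le_self_pow₀ (by nlinarith) (by omega)
    have h3 : (1 : ℝ) ≤ M * ((r + 1 : ℕ) : ℝ) := by
      have : (1 : ℝ) ≤ ((r + 1 : ℕ) : ℝ) := by exact_mod_cast (by omega : 1 ≤ r + 1)
      nlinarith
    have h4 : 0 ≤ ((R : ℝ) * P) ^ r := by positivity
    nlinarith
  have hH0 : 0 < H := lt_of_lt_of_le hPr0 hHP
  set ρ : ℝ := c * ((2 : ℝ) * q) ^ (-κ) with hρ
  have hρ0 : 0 < ρ := by positivity
  set τ : ℝ := ρ / ((i : ℝ) + 1) with hτ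
  have hτ0 : 0 < τ := by positivity
  have hτH : τ ≤ H := by
    have h1 : τ ≤ ρ := div_le_self hρ0.le (by linarith [(Nat.cast_nonneg i : (0 : ℝ) ≤ i)])
    have h2 : ρ ≤ c := by
      rw [hρ]
      have : ((2 : ℝ) * q) ^ (-κ) ≤ 1 :=
        Real.rpow_le_one_of_one_le_of_nonpos (by linarith) (by linarith)
      nlinarith
    linarith
  have hτi : 1 / τ = ((i : ℝ) + 1) * ((2 : ℝ) ^ κ / c) * q ^ κ := by
    rw [hτ, hρ, Real.rpow_neg (by positivity), Real.mul_rpow (by norm_num) hq0.le]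
    field_simp
  set X := Fintype.piFinset (fun _ : Fin (r + 2) => Ioc P (R * P)) with hX
  set T : ℝ := (P : ℝ) ^ (r + 1) * ((1 / H) * Real.exp (-Real.pi)) with hT
  have hTP : T = P / A0 := by
    rw [hT, hH, hr1, hA0, Real.exp_neg, mul_pow, pow_succ]
    field_simp
  have hT0 : 0 < T := by rw [hTP]; positivity
  have hcardX : (X.card : ℝ) ≤ (R * P : ℝ) ^ (r + 2) := by
    rw [hX, Fintype.card_piFinset_const, Nat.card_Ioc]
    push_cast
    apply pow_le_pow_left₀ (by positivity)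
    have : ((R * P - P : ℕ) : ℝ) ≤ ((R * P : ℕ) : ℝ) := by exact_mod_cast Nat.sub_le _ _
    push_cast at this
    exact this
  have hPPR : P ≤ R * P := Nat.le_mul_of_pos_left _ (by omega)
  refine ⟨fun l => Wt (r + 2) l * Jn (r + 1) (r + 2) τ H X l / ((T / 2) ^ 2 * q ^ (1 - η)),
    fun l => ?_, ?_, ?_, ?_⟩
  · have h1 := Jn_nonneg (r + 1) (r + 2) hτ0 hH0 X l
    have h2 := (Wt_pos (r + 2) l).le
    positivity
  · exact (integral_Jn (r + 1) (r + 2) hτ0 hH0 X).1.div_const _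
  · rw [integral_div, (integral_Jn (r + 1) (r + 2) hτ0 hH0 X).2]
    have hD := Dsum (k := r + 1) (r := r) (by omega) hP1' hPPR hτ0 hτH
    rw [← hX] at hD
    have e1 : ((P : ℝ) ^ (r + 1 - 1)) ^ 2 = ((P : ℝ) ^ r) ^ 2 := by rw [hr1]
    have e2 : H / ((P : ℝ) ^ (r + 1 - 1)) ^ 2 * (3 + 2 * Real.log ((R * P : ℕ) : ℝ)) ^ 2 *
        ((R * P : ℕ) : ℝ) ^ r = B0 * (3 + 2 * Real.log ((R * P : ℕ) : ℝ)) ^ 2 := by
      rw [e1, hH, hr1, hB0]
      push_cast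
      rw [mul_pow]
      field_simp
    rw [e2] at hD
    have hlog : 3 + 2 * Real.log ((R * P : ℕ) : ℝ) ≤ D3 * ((i : ℝ) + 1) := by
      push_cast
      rw [Real.log_mul hR0.ne' hPr0.ne']
      have h1 : Real.log P ≤ i := by
        have h2 : (P : ℝ) ≤ q := by
          refine le_trans ?_ hPq
          exact le_self_pow₀ hPr (by omega)
        have h3 : Real.log P ≤ Real.log q := Real.log_le_log hPr0 h2
        rw [hq, Real.log_pow] at h3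
        have h4 : Real.log 2 ≤ 1 := by
          have := Real.log_two_lt_d9; linarith
        have h5 : (0 : ℝ) ≤ i := Nat.cast_nonneg i
        nlinarith
      rw [hD3]
      have h5 : (0 : ℝ) ≤ i := Nat.cast_nonneg i
      nlinarith
    have hlog0 : 0 ≤ 3 + 2 * Real.log ((R * P : ℕ) : ℝ) := by
      have := Real.log_natCast_nonneg (R * P)
      linarith
    have hqκ : 1 ≤ q ^ κ := Real.one_le_rpow hq1 hκ
    have h1 : 1 / τ + B0 * (3 + 2 * Real.log ((R * P : ℕ) : ℝ)) ^ 2 ≤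
        ((2 : ℝ) ^ κ / c + B0 * D3 ^ 2) * (((i : ℝ) + 1) ^ 2 * q ^ κ) := by
      rw [hτi]
      have h2 : (3 + 2 * Real.log ((R * P : ℕ) : ℝ)) ^ 2 ≤ (D3 * ((i : ℝ) + 1)) ^ 2 :=
        pow_le_pow_left₀ hlog0 hlog 2
      have h3 : B0 * (3 + 2 * Real.log ((R * P : ℕ) : ℝ)) ^ 2 ≤
          B0 * D3 ^ 2 * (((i : ℝ) + 1) ^ 2 * q ^ κ) := by
        calc _ ≤ B0 * (D3 * ((i : ℝ) + 1)) ^ 2 := mul_le_mul_of_nonneg_left h2 hB00.le
          _ = B0 * D3 ^ 2 * ((i : ℝ) + 1) ^ 2 * 1 := by ring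
          _ ≤ B0 * D3 ^ 2 * ((i : ℝ) + 1) ^ 2 * q ^ κ :=
              mul_le_mul_of_nonneg_left hqκ (by positivity)
          _ = _ := by ring
      have h4 : ((i : ℝ) + 1) * ((2 : ℝ) ^ κ / c) * q ^ κ ≤
          (2 : ℝ) ^ κ / c * (((i : ℝ) + 1) ^ 2 * q ^ κ) := by
        have h5 : (0 : ℝ) ≤ i := Nat.cast_nonneg i
        have h6 : (i : ℝ) + 1 ≤ ((i : ℝ) + 1) ^ 2 := by nlinarith
        calc _ = (2 : ℝ) ^ κ / c * (((i : ℝ) + 1) * q ^ κ) := by ring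
          _ ≤ _ := by gcongr
      linarith
    have hPr' : (P : ℝ) ^ r ≤ q ^ (1 - 1 / ((r + 1 : ℕ) : ℝ)) := by
      have hk0 : (0 : ℝ) < ((r + 1 : ℕ) : ℝ) := by exact_mod_cast (by omega : 0 < r + 1)
      have h2 : ((P : ℝ) ^ (r + 1)) ^ (1 - 1 / ((r + 1 : ℕ) : ℝ)) ≤
          q ^ (1 - 1 / ((r + 1 : ℕ) : ℝ)) := by
        apply Real.rpow_le_rpow (by positivity) hPq
        rw [sub_nonneg, div_le_one hk0]
        exact_mod_cast (by omega : 1 ≤ r + 1)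
      have h3 : ((P : ℝ) ^ (r + 1)) ^ (1 - 1 / ((r + 1 : ℕ) : ℝ)) = (P : ℝ) ^ r := by
        rw [← Real.rpow_natCast (P : ℝ) (r + 1), ← Real.rpow_mul hPr0.le, mul_sub, mul_one,
          mul_one_div_cancel hk0.ne', ← Real.rpow_natCast (P : ℝ) r]
        congr 1
        push_cast
        ring
      rw [h3] at h2
      exact h2
    have hfin : (∑ x ∈ X, ∑ y ∈ X, Dk τ H (∑ j, ((x j : ℝ) ^ (r + 1) - (y j : ℝ) ^ (r + 1)) ^ 2)) /
        ((T / 2) ^ 2 * q ^ (1 - η)) ≤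
        (((R * P : ℕ) : ℝ) ^ (r + 2) * (((2 : ℝ) ^ κ / c + B0 * D3 ^ 2) *
          (((i : ℝ) + 1) ^ 2 * q ^ κ))) / ((T / 2) ^ 2 * q ^ (1 - η)) := by
      apply div_le_div_of_nonneg_right _ (by positivity)
      exact le_trans hD (mul_le_mul_of_nonneg_left h1 (by positivity))
    refine le_trans hfin ?_
    have e3 : (((R * P : ℕ) : ℝ) ^ (r + 2) * (((2 : ℝ) ^ κ / c + B0 * D3 ^ 2) *
          (((i : ℝ) + 1) ^ 2 * q ^ κ))) / ((T / 2) ^ 2 * q ^ (1 - η)) =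
        4 * A0 ^ 2 * (R : ℝ) ^ (r + 2) * ((2 : ℝ) ^ κ / c + B0 * D3 ^ 2) * (((i : ℝ) + 1) ^ 2 *
          ((P : ℝ) ^ r * (q ^ κ / q ^ (1 - η)))) := by
      rw [hTP]
      push_cast
      rw [mul_pow, show (P : ℝ) ^ (r + 2) = P ^ r * P ^ 2 by rw [pow_add]]
      field_simp
      ring
    rw [e3]
    apply mul_le_mul_of_nonneg_left _ (by positivity)
    apply mul_le_mul_of_nonneg_left _ (by positivity)
    calc (P : ℝ) ^ r * (q ^ κ / q ^ (1 - η)) ≤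
          q ^ (1 - 1 / ((r + 1 : ℕ) : ℝ)) * (q ^ κ / q ^ (1 - η)) :=
          mul_le_mul_of_nonneg_right hPr' (by positivity)
      _ = q ^ (-(1 / ((r + 1 : ℕ) : ℝ) - κ - η)) := by
          rw [← Real.rpow_sub hq0, ← Real.rpow_add hq0]
          congr 1
          ring
  · intro l hl hf
    have hW := Wt_pos (r + 2) l
    have hJ : Jn (r + 1) (r + 2) τ H X l / (T / 2) ^ 2 ≤ q ^ (1 - η) := by
      rw [div_le_iff₀ (by positivity)] at hf
      rw [div_le_iff₀ (by positivity)]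
      have := le_of_mul_le_mul_left hf hW
      linarith
    obtain ⟨hInt, hEq⟩ := Jn_eq (r + 1) (r + 2) hτ0 hH0 X l
    have hch := cheb hInt (t := T / 2) (by positivity)
    rw [hEq] at hch
    refine le_trans (le_trans (measure_mono ?_) hch) (ENNReal.ofReal_le_ofReal hJ)
    rintro N ⟨⟨hN1, hNx⟩, hNa, hNb⟩
    rw [Set.mem_ofPred_eq]
    have hN0 : 0 < N := by linarith
    have hNa' : q ≤ N := hNa
    have hNb' : N ≤ 2 * q := by rw [hq]; rw [pow_succ] at hNb; linarith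
    have hρN : ρ ≤ c * N ^ (-κ) := by
      rw [hρ]
      apply mul_le_mul_of_nonneg_left _ hc.le
      exact Real.rpow_le_rpow_of_nonpos hN0 hNb' (by linarith)
    have hnar := narrowN (X := X) (z := fun x : Fin (r + 2) → ℕ => ∑ j, l j * (x j : ℝ) ^ (r + 1))
      (τ := τ) (ρ := ρ) (N := N) hτ0 hρ0.le (by
        intro x hx
        refine le_trans hρN (hNx x fun j => ?_)
        rw [hX, Fintype.mem_piFinset] at hx
        have := (mem_Ioc.mp (hx j)).1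
        omega)
    have hρτ : ρ / τ = (i : ℝ) + 1 := by
      rw [hτ]; field_simp
    rw [hρτ] at hnar
    have hwide := wideN (k := r + 1) (m := r + 1) (P := P) (R := R) (M := M) hk hM hP1' (l := l) hl
      (N := N) hR2 (by
        have h1 : (((r + 1 : ℕ) : ℝ) * M * 2 ^ (r + 1) + M * 3 ^ (r + 1)) = C := by
          rw [hC]; push_cast; ring
        rw [h1]
        rw [le_div_iff₀ hC0] at hP1
        linarith) (by
        have h1 : q < C * ((P : ℝ) + 1) ^ (r + 1) := by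
          rw [div_lt_iff₀ hC0] at hP2
          linarith
        have h2 : ((P : ℝ) + 1) ^ (r + 1) ≤ (2 * P) ^ (r + 1) :=
          pow_le_pow_left₀ (by positivity) (by linarith) _
        rw [mul_pow] at h2 ⊢
        have h3 : M * N ≤ M * (2 * q) := mul_le_mul_of_nonneg_left hNb' hM0.le
        have h4 : M * (2 * q) < M * (2 * (C * (2 ^ (r + 1) * (P : ℝ) ^ (r + 1)))) := by
          apply mul_lt_mul_of_pos_left _ hM0
          have := mul_le_mul_of_nonneg_left h2 hC0.le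
          linarith
        have h5 : M * (2 * (C * (2 ^ (r + 1) * (P : ℝ) ^ (r + 1)))) =
            (2 * (M : ℝ) * C * 2 ^ (r + 1)) * (P : ℝ) ^ (r + 1) := by ring
        have h6 := mul_le_mul_of_nonneg_right hRpow (by positivity : 0 ≤ (P : ℝ) ^ (r + 1))
        linarith) (H := H) hH
    rw [← hT] at hwide
    have hsum : ∑ x ∈ X, (gs τ (∑ j, l j * (x j : ℝ) ^ (r + 1) - N) -
        gs H (∑ j, l j * (x j : ℝ) ^ (r + 1) - N)) =
        ∑ x ∈ X, gs τ (∑ j, l j * (x j : ℝ) ^ (r + 1) - N) -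
          ∑ x ∈ X, gs H (∑ j, l j * (x j : ℝ) ^ (r + 1) - N) := sum_sub_distrib _ _
    have hsmall : (X.card : ℝ) * ((1 / τ) * Real.exp (-(Real.pi * ((i : ℝ) + 1) ^ 2))) ≤ T / 2 := by
      have h1 : (X.card : ℝ) * ((1 / τ) * Real.exp (-(Real.pi * ((i : ℝ) + 1) ^ 2))) ≤
          (R * P : ℝ) ^ (r + 2) * ((((i : ℝ) + 1) * ((2 : ℝ) ^ κ / c) * q ^ κ) *
            Real.exp (-(Real.pi * ((i : ℝ) + 1) ^ 2))) := by
        rw [hτi]
        gcongr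
      refine le_trans h1 ?_
      have h2 : (R * P : ℝ) ^ (r + 2) * ((((i : ℝ) + 1) * ((2 : ℝ) ^ κ / c) * q ^ κ) *
            Real.exp (-(Real.pi * ((i : ℝ) + 1) ^ 2))) ≤
          ((2 * A0 * (R : ℝ) ^ (r + 2) * ((2 : ℝ) ^ κ / c)) * ((i : ℝ) + 1) * q ^ (1 + κ) *
            Real.exp (-(Real.pi * ((i : ℝ) + 1) ^ 2))) * (P / A0 / 2) := by
        have e4 : q ^ (1 + κ) = q * q ^ κ := by rw [Real.rpow_add hq0, Real.rpow_one]
        have e5 : (R * P : ℝ) ^ (r + 2) = (R : ℝ) ^ (r + 2) * ((P : ℝ) ^ (r + 1) * P) := by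
          rw [mul_pow, ← pow_succ]
        have e6 : ((2 * A0 * (R : ℝ) ^ (r + 2) * ((2 : ℝ) ^ κ / c)) * ((i : ℝ) + 1) *
            (q * q ^ κ) * Real.exp (-(Real.pi * ((i : ℝ) + 1) ^ 2))) * (P / A0 / 2) =
            (R : ℝ) ^ (r + 2) * (q * P) * ((((i : ℝ) + 1) * ((2 : ℝ) ^ κ / c) * q ^ κ) *
            Real.exp (-(Real.pi * ((i : ℝ) + 1) ^ 2))) := by
          field_simp
        rw [e4, e5, e6]
        gcongr
      refine le_trans h2 ?_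
      rw [hTP]
      calc _ ≤ 1 * (P / A0 / 2) := mul_le_mul_of_nonneg_right hs1.le (by positivity)
        _ = _ := one_mul _
    rw [hsum, abs_sub_comm]
    refine le_trans ?_ (le_abs_self _)
    have h7 : ∑ x ∈ X, gs τ (∑ j, l j * (x j : ℝ) ^ (r + 1) - N) ≤ T / 2 := le_trans hnar hsmall
    have h8 : T ≤ ∑ x ∈ X, gs H (∑ j, l j * (x j : ℝ) ^ (r + 1) - N) := hwide
    linarith

end Pool.Agent.X114.MV
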