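import Mathlib
import Pool.Agent.X114.MV.First

/-! Almost sure convergence, the first step, and the doubling of the exponent of the exceptional set
when one more variable with a generic coefficient is added. -/

set_option autoImplicit false

namespace Pool.Agent.X114.MV

open Finset MeasureTheory Filter Topology
open Pool.Agent.X114.WM

theorem ae_tendsto_zero' {α : Type*} [MeasurableSpace α] {μ : Measure α} {f : ℕ → α → ℝ}
    (h0 : ∀ j l, 0 ≤ f j l) (hi : ∀ j, Integrable (f j) μ)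
    {b : ℕ → ℝ} (hb : Summable b) (hfb : ∀ j, ∫ l, f j l ∂μ ≤ b j) :
    ∀ᵐ l ∂μ, Tendsto (fun j => f j l) atTop (𝓝 0) := by
  have h1 : ∫⁻ l, ∑' j, ENNReal.ofReal (f j l) ∂μ ≤ ∑' j, ENNReal.ofReal (b j) := by
    rw [lintegral_tsum fun j => (hi j).aestronglyMeasurable.aemeasurable.ennreal_ofReal]
    apply ENNReal.tsum_le_tsum
    intro j
    rw [← ofReal_integral_eq_lintegral_ofReal (hi j) (ae_of_all _ (h0 j))]
    exact ENNReal.ofReal_le_ofReal (hfb j)
  have h2 : ∑' j, ENNReal.ofReal (b j) ≠ ⊤ := by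
    have hbn : ∀ j, 0 ≤ b j := fun j => le_trans (integral_nonneg (h0 j)) (hfb j)
    rw [← ENNReal.ofReal_tsum_of_nonneg hbn hb]
    exact ENNReal.ofReal_ne_top
  have h3 : ∫⁻ l, ∑' j, ENNReal.ofReal (f j l) ∂μ ≠ ⊤ := ne_top_of_le_ne_top h2 h1
  have h4 : ∀ᵐ l ∂μ, ∑' j, ENNReal.ofReal (f j l) < ⊤ := by
    apply ae_lt_top' _ h3
    exact AEMeasurable.tsum
      fun j => (hi j).aestronglyMeasurable.aemeasurable.ennreal_ofReal
  filter_upwards [h4] with l hl
  have h5 := ENNReal.tendsto_atTop_zero_of_tsum_ne_top hl.ne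
  have h6 := (ENNReal.tendsto_toReal ENNReal.zero_ne_top).comp h5
  simp only [ENNReal.toReal_zero] at h6
  refine h6.congr fun j => ?_
  simp only [Function.comp_apply]
  exact ENNReal.toReal_ofReal (h0 j l)

theorem pow_rpow_neg (δ : ℝ) (j : ℕ) : ((2 : ℝ) ^ j) ^ (-δ) = ((2 : ℝ) ^ (-δ)) ^ j := by
  rw [← Real.rpow_natCast 2 j, ← Real.rpow_mul (by norm_num), ← Real.rpow_natCast _ j,
    ← Real.rpow_mul (by norm_num), mul_comm]

theorem summable_sq_bound (δ D : ℝ) (hδ : 0 < δ) (j0 : ℕ) :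
    Summable (fun j : ℕ => D * ((((j0 + j : ℕ) : ℝ) + 1) ^ 2 * ((2 : ℝ) ^ (j0 + j)) ^ (-δ))) := by
  apply Summable.mul_left
  have hr : ‖(2 : ℝ) ^ (-δ)‖ < 1 := by
    rw [Real.norm_of_nonneg (by positivity)]
    exact Real.rpow_lt_one_of_one_lt_of_neg (by norm_num) (by linarith)
  have h0 := summable_pow_mul_geometric_of_norm_lt_one 2 hr
  have h1 := (summable_pow_mul_geometric_of_norm_lt_one 1 hr).mul_left 2
  have h2 := summable_pow_mul_geometric_of_norm_lt_one 0 hr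
  have h5 : Summable (fun j : ℕ => (((j : ℕ) : ℝ) + 1) ^ 2 * ((2 : ℝ) ^ j) ^ (-δ)) := by
    refine ((h0.add h1).add h2).congr fun j => ?_
    rw [pow_rpow_neg]
    ring
  have h6 := (summable_nat_add_iff j0).mpr h5
  refine h6.congr fun j => ?_
  rw [add_comm j j0]

/-- the block bound for the exceptional set -/
def Blk (E : Set ℝ) (η : ℝ) : Prop :=
  ∀ᶠ i : ℕ in atTop, volume (E ∩ Set.Icc ((2 : ℝ) ^ i) (2 ^ (i + 1))) ≤
    ENNReal.ofReal (((2 : ℝ) ^ i) ^ (1 - η))

theorem first {r : ℕ} (hr : 1 ≤ r) {κ c η : ℝ} (hκ : 0 ≤ κ) (hc : 0 < c)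
    (hη : η < 1 / ((r + 1 : ℕ) : ℝ) - κ) :
    ∀ᵐ l : Fin (r + 2) → ℝ, (∀ j, 0 < l j) → Blk (Exc (r + 1) (r + 2) κ c l) η := by
  have main : ∀ M : ℕ, ∀ᵐ l : Fin (r + 2) → ℝ,
      (∀ j, 1 / ((M + 1 : ℕ) : ℝ) ≤ l j ∧ l j ≤ ((M + 1 : ℕ) : ℝ)) →
        Blk (Exc (r + 1) (r + 2) κ c l) η := by
    intro M
    obtain ⟨D, i0, hst⟩ := stage1 hr (M := M + 1) (by omega) hκ hc η
    choose f hf0 hfi hfb hfc using fun j : ℕ => hst (i0 + j) (by omega)
    have hae := ae_tendsto_zero' hf0 hfi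
      (summable_sq_bound (1 / ((r + 1 : ℕ) : ℝ) - κ - η) D (by linarith) i0) hfb
    filter_upwards [hae] with l hl hlM
    have hW := Wt_pos (r + 2) l
    obtain ⟨j1, hj1⟩ := eventually_atTop.mp (hl.eventually_lt_const hW)
    unfold Blk
    filter_upwards [eventually_ge_atTop (i0 + j1)] with i hi
    have h1 := hfc (i - i0) l hlM (hj1 (i - i0) (by omega)).le
    rw [show i0 + (i - i0) = i by omega] at h1
    exact h1
  filter_upwards [ae_all_iff.mpr main] with l hl hpos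
  obtain ⟨M, hM⟩ := exists_nat_ge (∑ j, (l j + 1 / l j))
  have hle : ∀ j, l j + 1 / l j ≤ M := by
    intro j
    refine le_trans ?_ hM
    exact single_le_sum (f := fun j => l j + 1 / l j)
      (fun j _ => by have := hpos j; positivity) (mem_univ j)
  refine hl M fun j => ?_
  have h1 := hle j
  have h2 := hpos j
  have h3 : 0 < 1 / l j := by positivity
  push_cast
  constructor
  · rw [div_le_iff₀ (by positivity)]
    have h4 : 1 / l j ≤ M + 1 := by linarith
    rw [div_le_iff₀ h2] at h4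
    linarith
  · linarith

/-- the product bound -/
theorem corr_bound {E : Set ℝ} (hE : MeasurableSet E) {q : ℝ} (hq : 0 < q) :
    ∫⁻ t : ℝ, volume {u : ℝ | u ∈ E ∧ u - q * t ∈ E} = ENNReal.ofReal q⁻¹ * volume E * volume E := by
  set S : Set (ℝ × ℝ) := {p : ℝ × ℝ | p.2 ∈ E ∧ p.2 - q * p.1 ∈ E} with hS
  have hSm : MeasurableSet S := by
    have h1 : MeasurableSet {p : ℝ × ℝ | p.2 ∈ E} := measurable_snd hE
    have h2 : MeasurableSet {p : ℝ × ℝ | p.2 - q * p.1 ∈ E} := by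
      have : Measurable (fun p : ℝ × ℝ => p.2 - q * p.1) := by fun_prop
      exact this hE
    exact h1.inter h2
  have e1 := Measure.prod_apply (μ := (volume : Measure ℝ)) (ν := (volume : Measure ℝ)) hSm
  have e2 := Measure.prod_apply_symm (μ := (volume : Measure ℝ)) (ν := (volume : Measure ℝ)) hSm
  have e3 : ∀ t : ℝ, Prod.mk t ⁻¹' S = {u : ℝ | u ∈ E ∧ u - q * t ∈ E} := fun t => rfl
  have e4 : ∀ u : ℝ, volume ((fun t => (t, u)) ⁻¹' S) =
      E.indicator (fun _ => ENNReal.ofReal q⁻¹ * volume E) u := by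
    intro u
    by_cases hu : u ∈ E
    · rw [Set.indicator_of_mem hu]
      have h1 : (fun t => (t, u)) ⁻¹' S = (q * ·) ⁻¹' ((fun s => u - s) ⁻¹' E) := by
        ext t
        simp only [Set.mem_preimage, hS, Set.mem_ofPred_eq]
        constructor
        · rintro ⟨_, h⟩; exact h
        · intro h; exact ⟨hu, h⟩
      rw [h1, Real.volume_preimage_mul_left hq.ne', abs_of_pos (by positivity)]
      congr 1
      exact (Measure.measurePreserving_sub_left volume u).measure_preimage hE.nullMeasurableSet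
    · rw [Set.indicator_of_notMem hu]
      have h1 : (fun t => (t, u)) ⁻¹' S = ∅ := by
        ext t
        simp only [Set.mem_preimage, hS, Set.mem_ofPred_eq, Set.mem_empty_iff_false, iff_false]
        rintro ⟨h, _⟩
        exact hu h
      rw [h1, measure_empty]
  have e5 : ∫⁻ t : ℝ, volume {u : ℝ | u ∈ E ∧ u - q * t ∈ E} =
      ∫⁻ u : ℝ, E.indicator (fun _ => ENNReal.ofReal q⁻¹ * volume E) u := by
    rw [← lintegral_congr e4, ← e2, e1]
    rfl
  rw [e5, lintegral_indicator_const hE]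

/-- the exceptional set after one more variable -/
def Sh (k : ℕ) (E : Set ℝ) (t : ℝ) : Set ℝ :=
  {N : ℝ | ∀ x : ℕ, 0 < x → t * (x : ℝ) ^ k ≤ N / 2 → N - t * (x : ℝ) ^ k ∈ E}

theorem root_block {k : ℕ} (hk : 2 ≤ k) {M : ℕ} (hM : 1 ≤ M) :
    ∃ i0 : ℕ, ∀ i : ℕ, i0 ≤ i → ∃ x : ℕ, 0 < x ∧ 2 * (M : ℝ) * (x : ℝ) ^ k ≤ 2 ^ i ∧
      (2 : ℝ) ^ i / (4 * M * 2 ^ k) ≤ (x : ℝ) ^ k - 1 ∧ 2 * (M : ℝ) ≤ 2 ^ i := by
  have hMr : (1 : ℝ) ≤ M := by exact_mod_cast hM
  have hM0 : (0 : ℝ) < M := by linarith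
  have ev : ∀ᶠ i : ℕ in atTop, 2 * (M : ℝ) * 2 ^ k ≤ (2 : ℝ) ^ i :=
    (tendsto_pow_atTop_atTop_of_one_lt (by norm_num : (1 : ℝ) < 2)).eventually_ge_atTop _
  obtain ⟨i0, hi0⟩ := eventually_atTop.mp ev
  refine ⟨i0, fun i hi => ?_⟩
  have h0 := hi0 i hi
  obtain ⟨x, hx1, hx2⟩ := exists_kroot hk (y := (2 : ℝ) ^ i / (2 * M)) (by positivity)
  have hx3 : (2 : ℝ) < (x : ℝ) + 1 := by
    have h1 : (2 : ℝ) ^ k ≤ (2 : ℝ) ^ i / (2 * M) := by
      rw [le_div_iff₀ (by positivity)]; linarith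
    exact lt_of_pow_lt_pow_left₀ _ (by positivity) (lt_of_le_of_lt h1 hx2)
  have hx4 : 2 ≤ x := by
    have : (1 : ℝ) < x := by linarith
    have h : 1 < x := by exact_mod_cast this
    omega
  have hx5 : (2 : ℝ) ≤ x := by exact_mod_cast hx4
  refine ⟨x, by omega, ?_, ?_, ?_⟩
  · rw [le_div_iff₀ (by positivity)] at hx1
    linarith
  · have h1 : ((x : ℝ) + 1) ^ k ≤ (2 * x) ^ k := pow_le_pow_left₀ (by positivity) (by linarith) _
    rw [mul_pow] at h1
    have h2 : (2 : ℝ) ^ i / (2 * M) < 2 ^ k * (x : ℝ) ^ k := lt_of_lt_of_le hx2 h1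
    have h3 : (2 : ℝ) ≤ (x : ℝ) ^ k := by
      calc (2 : ℝ) ≤ x := hx5
        _ ≤ (x : ℝ) ^ k := le_self_pow₀ (by linarith) (by omega)
    have h4 : (2 : ℝ) ^ i / (4 * M * 2 ^ k) = (2 : ℝ) ^ i / (2 * M) / (2 * 2 ^ k) := by
      field_simp
      norm_num
    rw [h4, div_le_iff₀ (by positivity)]
    have h5 : 0 < (2 : ℝ) ^ k := by positivity
    nlinarith
  · have h1 : (1 : ℝ) ≤ 2 ^ k := one_le_pow₀ (by norm_num)
    nlinarith

theorem sh_block {k M i x : ℕ} {E : Set ℝ} (hE : MeasurableSet E) (hx : 0 < x)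
    (h1 : 2 * (M : ℝ) * (x : ℝ) ^ k ≤ 2 ^ i) (h2 : 2 * (M : ℝ) ≤ 2 ^ i) {t : ℝ} (ht0 : 0 < t)
    (htM : t ≤ M) (hi : 1 ≤ i) :
    volume (Sh k E t ∩ Set.Icc ((2 : ℝ) ^ i) (2 ^ (i + 1))) ≤
      volume {u : ℝ | u ∈ E ∩ Set.Icc ((2 : ℝ) ^ (i - 1)) (2 ^ (i + 1)) ∧
        u - ((x : ℝ) ^ k - 1) * t ∈ E ∩ Set.Icc ((2 : ℝ) ^ (i - 1)) (2 ^ (i + 1))} := by
  set F : Set ℝ := E ∩ Set.Icc ((2 : ℝ) ^ (i - 1)) (2 ^ (i + 1)) with hF
  have hFm : MeasurableSet F := hE.inter measurableSet_Icc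
  have e0 : (2 : ℝ) ^ i = 2 * 2 ^ (i - 1) := by
    rw [← pow_succ']; congr 1; omega
  have hsub : Sh k E t ∩ Set.Icc ((2 : ℝ) ^ i) (2 ^ (i + 1)) ⊆
      (fun N : ℝ => N - t) ⁻¹' {u : ℝ | u ∈ F ∧ u - ((x : ℝ) ^ k - 1) * t ∈ F} := by
    rintro N ⟨hN, hNa, hNb⟩
    have hx1 : (1 : ℝ) ≤ (x : ℝ) ^ k := one_le_pow₀ (by exact_mod_cast hx)
    have ht1 : t * (x : ℝ) ^ k ≤ (2 : ℝ) ^ (i - 1) := by
      have : t * (x : ℝ) ^ k ≤ M * (x : ℝ) ^ k := mul_le_mul_of_nonneg_right htM (by positivity)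
      linarith
    have ht2 : t ≤ (2 : ℝ) ^ (i - 1) := by linarith
    have hp : 0 < t * (x : ℝ) ^ k := by positivity
    simp only [Set.mem_preimage, Set.mem_ofPred_eq]
    refine ⟨⟨?_, ?_, ?_⟩, ?_, ?_, ?_⟩
    · have := hN 1 one_pos (by simp only [Nat.cast_one, one_pow, mul_one]; linarith)
      simpa using this
    · linarith
    · linarith
    · have := hN x hx (by linarith)
      have e : N - t - ((x : ℝ) ^ k - 1) * t = N - t * (x : ℝ) ^ k := by ring
      rw [e]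
      exact this
    · have e : N - t - ((x : ℝ) ^ k - 1) * t = N - t * (x : ℝ) ^ k := by ring
      rw [e]
      linarith
    · have e : N - t - ((x : ℝ) ^ k - 1) * t = N - t * (x : ℝ) ^ k := by ring
      rw [e]
      linarith
  refine le_trans (measure_mono hsub) (le_of_eq ?_)
  have hm : MeasurableSet {u : ℝ | u ∈ F ∧ u - ((x : ℝ) ^ k - 1) * t ∈ F} := by
    have h3 : MeasurableSet {u : ℝ | u - ((x : ℝ) ^ k - 1) * t ∈ F} := by
      have : Measurable (fun u : ℝ => u - ((x : ℝ) ^ k - 1) * t) := by fun_prop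
      exact this hFm
    exact hFm.inter h3
  exact (measurePreserving_sub_right volume t).measure_preimage hm.nullMeasurableSet

theorem double {k : ℕ} (hk : 2 ≤ k) {E : Set ℝ} (hE : MeasurableSet E) {η η' : ℝ}
    (hη : η' < 2 * η) (hQ : Blk E η) : ∀ᵐ t : ℝ, 0 < t → Blk (Sh k E t) η' := by
  have main : ∀ M : ℕ, ∀ᵐ t : ℝ, 0 < t → t ≤ ((M + 1 : ℕ) : ℝ) → Blk (Sh k E t) η' := by
    intro M
    obtain ⟨m, hm⟩ : ∃ m : ℕ, m = M + 1 := ⟨_, rfl⟩
    rw [← hm]
    have hm1 : 1 ≤ m := by omega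
    have hm0 : (0 : ℝ) < m := by exact_mod_cast hm1
    obtain ⟨i1, hi1⟩ := root_block hk hm1
    obtain ⟨i2, hi2⟩ := eventually_atTop.mp hQ
    set i0 : ℕ := i1 + i2 + 1 with hi0
    choose x hx0 hx1 hx2 hx3 using fun j : ℕ => hi1 (i0 + j) (by omega)
    set F : ℕ → Set ℝ := fun j => E ∩ Set.Icc ((2 : ℝ) ^ (i0 + j - 1)) (2 ^ (i0 + j + 1)) with hF
    have hFm : ∀ j, MeasurableSet (F j) := fun j => hE.inter measurableSet_Icc
    set h : ℕ → ℝ → ENNReal := fun j t =>
      volume {u : ℝ | u ∈ F j ∧ u - ((x j : ℝ) ^ k - 1) * t ∈ F j} with hh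
    set A : ℕ → ℝ := fun j => ((2 : ℝ) ^ (i0 + j)) ^ (1 - η') with hA
    have hA0 : ∀ j, 0 < A j := fun j => by rw [hA]; positivity
    set K : ℝ := (2 : ℝ) ^ (-(1 - η)) + 1 with hK
    have hK0 : 0 < K := by rw [hK]; positivity
    have hFvol : ∀ j, volume (F j) ≤ ENNReal.ofReal (K * ((2 : ℝ) ^ (i0 + j)) ^ (1 - η)) := by
      intro j
      have hsub : F j ⊆ (E ∩ Set.Icc ((2 : ℝ) ^ (i0 + j - 1)) (2 ^ (i0 + j - 1 + 1))) ∪
          (E ∩ Set.Icc ((2 : ℝ) ^ (i0 + j)) (2 ^ (i0 + j + 1))) := by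
        rintro N ⟨hN, hNa, hNb⟩
        rw [show i0 + j - 1 + 1 = i0 + j by omega]
        rcases le_total N (2 ^ (i0 + j)) with h | h
        · exact Or.inl ⟨hN, hNa, h⟩
        · exact Or.inr ⟨hN, h, hNb⟩
      have b1 := hi2 (i0 + j - 1) (by omega)
      have b2 := hi2 (i0 + j) (by omega)
      calc volume (F j) ≤ _ := measure_mono hsub
        _ ≤ _ := measure_union_le _ _
        _ ≤ _ := add_le_add b1 b2
        _ = ENNReal.ofReal (((2 : ℝ) ^ (i0 + j - 1)) ^ (1 - η) + ((2 : ℝ) ^ (i0 + j)) ^ (1 - η)) := by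
            rw [ENNReal.ofReal_add (by positivity) (by positivity)]
        _ = _ := by
            congr 1
            have e1 : (2 : ℝ) ^ (i0 + j - 1) = (2 : ℝ) ^ (i0 + j) * 2⁻¹ := by
              rw [show i0 + j = (i0 + j - 1) + 1 by omega, pow_succ,
                show i0 + j - 1 + 1 - 1 = i0 + j - 1 by omega]
              ring
            rw [e1, Real.mul_rpow (by positivity) (by positivity), Real.inv_rpow (by norm_num),
              ← Real.rpow_neg (by norm_num), hK]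
            ring
    have hq0 : ∀ j, 0 < (x j : ℝ) ^ k - 1 := fun j =>
      lt_of_lt_of_le (by positivity) (hx2 j)
    have hint : ∀ j, ∫⁻ t : ℝ, h j t ≤ ENNReal.ofReal (4 * m * 2 ^ k * K ^ 2 *
        ((2 : ℝ) ^ (i0 + j)) ^ (1 - 2 * η)) := by
      intro j
      have e1 := corr_bound (hFm j) (hq0 j)
      rw [hh]
      simp only
      rw [e1]
      set p : ℝ := (2 : ℝ) ^ (i0 + j) with hp
      have hp0 : 0 < p := by positivity
      have b3 : ((x j : ℝ) ^ k - 1)⁻¹ ≤ 4 * m * 2 ^ k / p := by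
        rw [inv_le_comm₀ (hq0 j) (by positivity), inv_div]
        exact hx2 j
      calc ENNReal.ofReal ((x j : ℝ) ^ k - 1)⁻¹ * volume (F j) * volume (F j)
          ≤ ENNReal.ofReal (4 * m * 2 ^ k / p) * ENNReal.ofReal (K * p ^ (1 - η)) *
            ENNReal.ofReal (K * p ^ (1 - η)) := by
            gcongr
            · exact hFvol j
            · exact hFvol j
        _ = ENNReal.ofReal (4 * m * 2 ^ k / p * (K * p ^ (1 - η)) * (K * p ^ (1 - η))) := by
            rw [← ENNReal.ofReal_mul (by positivity), ← ENNReal.ofReal_mul (by positivity)]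
        _ = _ := by
            congr 1
            have e2 : p ^ (1 - 2 * η) = p ^ (1 - η) * p ^ (1 - η) / p := by
              rw [← Real.rpow_add hp0, ← Real.rpow_sub_one hp0.ne']
              congr 1
              ring
            rw [e2]
            field_simp
    have hmeas : ∀ j, Measurable (h j) := by
      intro j
      have hSm : MeasurableSet {p : ℝ × ℝ | p.2 ∈ F j ∧ p.2 - ((x j : ℝ) ^ k - 1) * p.1 ∈ F j} := by
        have g1 : MeasurableSet {p : ℝ × ℝ | p.2 ∈ F j} := measurable_snd (hFm j)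
        have g2 : MeasurableSet {p : ℝ × ℝ | p.2 - ((x j : ℝ) ^ k - 1) * p.1 ∈ F j} := by
          have : Measurable (fun p : ℝ × ℝ => p.2 - ((x j : ℝ) ^ k - 1) * p.1) := by fun_prop
          exact this (hFm j)
        exact g1.inter g2
      exact measurable_measure_prodMk_left hSm
    -- convert to real functions
    have hfin : ∀ j, ∫⁻ t : ℝ, h j t ≠ ⊤ := fun j =>
      ne_top_of_le_ne_top ENNReal.ofReal_ne_top (hint j)
    have hae1 : ∀ᵐ t : ℝ, ∀ j, h j t < ⊤ := by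
      rw [ae_all_iff]
      exact fun j => ae_lt_top (hmeas j) (hfin j)
    have hf := ae_tendsto_zero' (μ := (volume : Measure ℝ)) (f := fun j t => (h j t).toReal / A j)
      (fun j t => by have := hA0 j; positivity)
      (fun j => (integrable_toReal_of_lintegral_ne_top (hmeas j).aemeasurable (hfin j)).div_const _)
      (b := fun j => 4 * m * 2 ^ k * K ^ 2 * ((2 : ℝ) ^ (i0 + j)) ^ (-(2 * η - η')))
      (by
        apply Summable.mul_left
        have hr : ‖(2 : ℝ) ^ (-(2 * η - η'))‖ < 1 := by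
          rw [Real.norm_of_nonneg (by positivity)]
          exact Real.rpow_lt_one_of_one_lt_of_neg (by norm_num) (by linarith)
        have h5 := summable_geometric_of_norm_lt_one hr
        have h6 := (summable_nat_add_iff i0).mpr h5
        refine h6.congr fun j => ?_
        rw [pow_rpow_neg, add_comm j i0])
      (by
        intro j
        rw [integral_div, integral_toReal (hmeas j).aemeasurable (ae_lt_top (hmeas j) (hfin j)),
          div_le_iff₀ (hA0 j)]
        have b4 := ENNReal.toReal_mono ENNReal.ofReal_ne_top (hint j)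
        rw [ENNReal.toReal_ofReal (by positivity)] at b4
        refine le_trans b4 (le_of_eq ?_)
        rw [hA]
        simp only
        rw [mul_assoc (4 * m * 2 ^ k * K ^ 2), ← Real.rpow_add (by positivity)]
        congr 2
        ring)
    filter_upwards [hae1, hf] with t ht1 ht2 ht0 htm
    obtain ⟨j1, hj1⟩ := eventually_atTop.mp (ht2.eventually_lt_const one_pos)
    unfold Blk
    filter_upwards [eventually_ge_atTop (i0 + j1)] with i hi
    have e3 : i0 + (i - i0) = i := by omega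
    have b5 := hj1 (i - i0) (by omega)
    rw [div_lt_one (hA0 _)] at b5
    have hb := sh_block (k := k) (i := i0 + (i - i0)) hE (hx0 (i - i0)) (hx1 (i - i0))
      (hx3 (i - i0)) ht0 htm (by omega)
    have b6 : h (i - i0) t ≤ ENNReal.ofReal (A (i - i0)) := by
      rw [← ENNReal.ofReal_toReal (ht1 (i - i0)).ne]
      exact ENNReal.ofReal_le_ofReal b5.le
    have b7 := le_trans hb b6
    rw [hA] at b7
    simp only at b7
    rw [e3] at b7
    exact b7
  filter_upwards [ae_all_iff.mpr main] with t ht ht0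
  obtain ⟨M, hM⟩ := exists_nat_ge t
  exact ht M ht0 (by push_cast; linarith)

end Pool.Agent.X114.MV
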