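import Mathlib
import Pool.Agent.X114.MV.Double

/-! Adding variables: measurability, Fubini, induction, and the final step. -/

set_option autoImplicit false

namespace Pool.Agent.X114.MV

open Finset MeasureTheory Filter Topology
open Pool.Agent.X114.WM

theorem measurable_Exc (k n : ℕ) (κ c : ℝ) :
    MeasurableSet {p : (Fin n → ℝ) × ℝ | p.2 ∈ Exc k n κ c p.1} := by
  have h1 : MeasurableSet {p : (Fin n → ℝ) × ℝ | 1 ≤ p.2} :=
    measurableSet_le measurable_const measurable_snd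
  have h2 : MeasurableSet {p : (Fin n → ℝ) × ℝ | ∀ x : Fin n → ℕ, (∀ i, 0 < x i) →
      c * p.2 ^ (-κ) ≤ |∑ i, p.1 i * (x i : ℝ) ^ k - p.2|} := by
    have : {p : (Fin n → ℝ) × ℝ | ∀ x : Fin n → ℕ, (∀ i, 0 < x i) →
      c * p.2 ^ (-κ) ≤ |∑ i, p.1 i * (x i : ℝ) ^ k - p.2|} = ⋂ x : Fin n → ℕ,
        {p : (Fin n → ℝ) × ℝ | (∀ i, 0 < x i) →
          c * p.2 ^ (-κ) ≤ |∑ i, p.1 i * (x i : ℝ) ^ k - p.2|} := by
      ext p
      simp only [Set.mem_iInter, Set.mem_ofPred_eq]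
    rw [this]
    refine MeasurableSet.iInter fun x => ?_
    by_cases hx : ∀ i, 0 < x i
    · have e : {p : (Fin n → ℝ) × ℝ | (∀ i, 0 < x i) →
          c * p.2 ^ (-κ) ≤ |∑ i, p.1 i * (x i : ℝ) ^ k - p.2|} =
          {p : (Fin n → ℝ) × ℝ | c * p.2 ^ (-κ) ≤ |∑ i, p.1 i * (x i : ℝ) ^ k - p.2|} := by
        ext p
        simp only [Set.mem_ofPred_eq]
        exact ⟨fun h => h hx, fun h _ => h⟩
      rw [e]
      apply measurableSet_le
      · exact (measurable_snd.pow_const (-κ)).const_mul c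
      · have h3 : Measurable (fun p : (Fin n → ℝ) × ℝ => ∑ i, p.1 i * (x i : ℝ) ^ k - p.2) := by
          apply Measurable.sub _ measurable_snd
          refine Finset.measurable_fun_sum _ fun i _ => ?_
          exact ((measurable_pi_apply i).comp measurable_fst).mul_const _
        exact h3.norm
    · have e : {p : (Fin n → ℝ) × ℝ | (∀ i, 0 < x i) →
          c * p.2 ^ (-κ) ≤ |∑ i, p.1 i * (x i : ℝ) ^ k - p.2|} = Set.univ := by
        ext p
        simp only [Set.mem_ofPred_eq, Set.mem_univ, iff_true]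
        exact fun h => absurd h hx
      rw [e]
      exact MeasurableSet.univ
  exact h1.inter h2

theorem measurable_Exc' (k n : ℕ) (κ c : ℝ) (l : Fin n → ℝ) : MeasurableSet (Exc k n κ c l) :=
  measurable_prodMk_left (measurable_Exc k n κ c)

theorem measurable_Blk (k n : ℕ) (κ c η : ℝ) :
    MeasurableSet {l : Fin n → ℝ | Blk (Exc k n κ c l) η} := by
  have h1 : ∀ i : ℕ, Measurable (fun l : Fin n → ℝ =>
      volume (Exc k n κ c l ∩ Set.Icc ((2 : ℝ) ^ i) (2 ^ (i + 1)))) := by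
    intro i
    have h2 : MeasurableSet {p : (Fin n → ℝ) × ℝ | p.2 ∈ Exc k n κ c p.1 ∧
        p.2 ∈ Set.Icc ((2 : ℝ) ^ i) (2 ^ (i + 1))} :=
      (measurable_Exc k n κ c).inter (measurable_snd measurableSet_Icc)
    exact measurable_measure_prodMk_left h2
  have e : {l : Fin n → ℝ | Blk (Exc k n κ c l) η} = ⋃ a : ℕ, ⋂ i : ℕ, ⋂ _ : a ≤ i,
      {l : Fin n → ℝ | volume (Exc k n κ c l ∩ Set.Icc ((2 : ℝ) ^ i) (2 ^ (i + 1))) ≤
        ENNReal.ofReal (((2 : ℝ) ^ i) ^ (1 - η))} := by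
    ext l
    simp only [Set.mem_ofPred_eq, Set.mem_iUnion, Set.mem_iInter, Blk, eventually_atTop]
  rw [e]
  refine MeasurableSet.iUnion fun a => MeasurableSet.iInter fun i => MeasurableSet.iInter fun _ => ?_
  exact measurableSet_le (h1 i) measurable_const

/-- one more variable -/
theorem Exc_cons {k n : ℕ} {κ c : ℝ} (hκ : 0 ≤ κ) (hc : 0 < c) (l : Fin n → ℝ) {t : ℝ}
    {i : ℕ} (hi : 1 ≤ i) :
    Exc k (n + 1) κ ((2 : ℝ) ^ κ * c) (Fin.cons t l) ∩ Set.Icc ((2 : ℝ) ^ i) (2 ^ (i + 1)) ⊆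
      Sh k (Exc k n κ c l) t ∩ Set.Icc ((2 : ℝ) ^ i) (2 ^ (i + 1)) := by
  rintro N ⟨⟨hN1, hNx⟩, hNI⟩
  refine ⟨fun x hx htx => ?_, hNI⟩
  have hN2 : (2 : ℝ) ≤ N := by
    refine le_trans ?_ hNI.1
    calc (2 : ℝ) = 2 ^ 1 := by norm_num
      _ ≤ 2 ^ i := pow_le_pow_right₀ (by norm_num) hi
  have hN0 : 0 < N := by linarith
  have h1 : N / 2 ≤ N - t * (x : ℝ) ^ k := by linarith
  refine ⟨by linarith, fun y hy => ?_⟩
  have h2 := hNx (Fin.cons x y) (by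
    intro j
    refine Fin.cases ?_ (fun j => ?_) j
    · simpa using hx
    · simpa using hy j)
  rw [Fin.sum_univ_succ] at h2
  simp only [Fin.cons_zero, Fin.cons_succ] at h2
  have e1 : t * (x : ℝ) ^ k + ∑ i, l i * (y i : ℝ) ^ k - N =
      ∑ i, l i * (y i : ℝ) ^ k - (N - t * (x : ℝ) ^ k) := by ring
  rw [e1] at h2
  refine le_trans ?_ h2
  have h3 : (N - t * (x : ℝ) ^ k) ^ (-κ) ≤ (N / 2) ^ (-κ) :=
    Real.rpow_le_rpow_of_nonpos (by linarith) h1 (by linarith)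
  have h4 : (N / 2) ^ (-κ) = (2 : ℝ) ^ κ * N ^ (-κ) := by
    rw [Real.div_rpow hN0.le (by norm_num), Real.rpow_neg (by norm_num : (0 : ℝ) ≤ 2)]
    field_simp
  calc c * (N - t * (x : ℝ) ^ k) ^ (-κ) ≤ c * (N / 2) ^ (-κ) := mul_le_mul_of_nonneg_left h3 hc.le
    _ = (2 : ℝ) ^ κ * c * N ^ (-κ) := by rw [h4]; ring

/-- the inductive statement -/
def St (k n : ℕ) (κ η : ℝ) : Prop :=
  ∀ c : ℝ, 0 < c → ∀ᵐ l : Fin n → ℝ, (∀ j, 0 < l j) → Blk (Exc k n κ c l) η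

theorem Blk_mono {E F : Set ℝ} {η : ℝ} (h : Blk F η)
    (hEF : ∀ᶠ i : ℕ in atTop, E ∩ Set.Icc ((2 : ℝ) ^ i) (2 ^ (i + 1)) ⊆
      F ∩ Set.Icc ((2 : ℝ) ^ i) (2 ^ (i + 1))) : Blk E η := by
  unfold Blk at h ⊢
  filter_upwards [h, hEF] with i h1 h2
  exact le_trans (measure_mono h2) h1

theorem St_succ {k n : ℕ} (hk : 2 ≤ k) {κ η η' : ℝ} (hκ : 0 ≤ κ) (hη : η' < 2 * η)
    (h : St k n κ η) : St k (n + 1) κ η' := by
  intro c' hc'
  obtain ⟨c, hc⟩ : ∃ c : ℝ, c = c' / (2 : ℝ) ^ κ := ⟨_, rfl⟩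
  have hc0 : 0 < c := by rw [hc]; positivity
  have hcc : c' = (2 : ℝ) ^ κ * c := by rw [hc]; field_simp
  have h1 := h c hc0
  have h2 : ∀ᵐ l : Fin n → ℝ, ∀ᵐ t : ℝ, (∀ j, 0 < l j) → 0 < t →
      Blk (Exc k (n + 1) κ c' (Fin.cons t l)) η' := by
    filter_upwards [h1] with l hl
    by_cases hpos : ∀ j, 0 < l j
    · filter_upwards [double hk (measurable_Exc' k n κ c l) hη (hl hpos)] with t ht _ ht0
      refine Blk_mono (ht ht0) ?_
      filter_upwards [eventually_ge_atTop 1] with i hi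
      rw [hcc]
      exact Exc_cons hκ hc0 l hi
    · exact ae_of_all _ fun t hl' => absurd hl' hpos
  have hpi : Measurable (fun z : (Fin n → ℝ) × ℝ => (Fin.cons z.2 z.1 : Fin (n + 1) → ℝ)) := by
    rw [measurable_pi_iff]
    intro j
    refine Fin.cases ?_ (fun j => ?_) j
    · simpa using measurable_snd
    · simp only [Fin.cons_succ]
      exact (measurable_pi_apply j).comp measurable_fst
  have hmeas : MeasurableSet {z : (Fin n → ℝ) × ℝ | (∀ j, 0 < z.1 j) → 0 < z.2 →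
      Blk (Exc k (n + 1) κ c' (Fin.cons z.2 z.1)) η'} := by
    have g1 : MeasurableSet {z : (Fin n → ℝ) × ℝ | ∀ j, 0 < z.1 j} := by
      have : {z : (Fin n → ℝ) × ℝ | ∀ j, 0 < z.1 j} = ⋂ j, {z : (Fin n → ℝ) × ℝ | 0 < z.1 j} := by
        ext z; simp only [Set.mem_iInter, Set.mem_ofPred_eq]
      rw [this]
      exact MeasurableSet.iInter fun j =>
        measurableSet_lt measurable_const ((measurable_pi_apply j).comp measurable_fst)
    have g2 : MeasurableSet {z : (Fin n → ℝ) × ℝ | 0 < z.2} :=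
      measurableSet_lt measurable_const measurable_snd
    have g3 : MeasurableSet {z : (Fin n → ℝ) × ℝ |
        Blk (Exc k (n + 1) κ c' (Fin.cons z.2 z.1)) η'} := hpi (measurable_Blk k (n + 1) κ c' η')
    have e : {z : (Fin n → ℝ) × ℝ | (∀ j, 0 < z.1 j) → 0 < z.2 →
        Blk (Exc k (n + 1) κ c' (Fin.cons z.2 z.1)) η'} =
        ({z : (Fin n → ℝ) × ℝ | ∀ j, 0 < z.1 j} ∩ {z : (Fin n → ℝ) × ℝ | 0 < z.2})ᶜ ∪
        {z : (Fin n → ℝ) × ℝ | Blk (Exc k (n + 1) κ c' (Fin.cons z.2 z.1)) η'} := by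
      ext z
      simp only [Set.mem_ofPred_eq, Set.mem_union, Set.mem_compl_iff, Set.mem_inter_iff]
      tauto
    rw [e]
    exact (g1.inter g2).compl.union g3
  have h3 := (Measure.ae_prod_iff_ae_ae (μ := (volume : Measure (Fin n → ℝ)))
    (ν := (volume : Measure ℝ)) hmeas).mpr h2
  have m1 := (volume_preserving_piFinSuccAbove (fun _ : Fin (n + 1) => ℝ) 0).quasiMeasurePreserving
  have m2 := (Measure.measurePreserving_swap (μ := (volume : Measure ℝ))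
    (ν := (volume : Measure (Fin n → ℝ)))).quasiMeasurePreserving
  have h4 := m1.ae (m2.ae h3)
  filter_upwards [h4] with l hl hpos
  have e : (Fin.cons (l 0) (fun j : Fin n => l j.succ) : Fin (n + 1) → ℝ) = l := by
    funext j
    refine Fin.cases ?_ (fun j => ?_) j
    · rfl
    · rfl
  have h5 := hl (fun j => hpos _) (hpos _)
  rw [← e]
  exact h5

theorem St_iter {r : ℕ} (hr : 1 ≤ r) {κ : ℝ} (hκ : 0 ≤ κ) : ∀ (j : ℕ) {η : ℝ},
    η < 2 ^ j * (1 / ((r + 1 : ℕ) : ℝ) - κ) → St (r + 1) (r + 2 + j) κ η := by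
  intro j
  induction j with
  | zero =>
    intro η hη c hc
    exact first hr hκ hc (by simpa using hη)
  | succ j ih =>
    intro η hη
    have h1 : η / 2 < 2 ^ j * (1 / ((r + 1 : ℕ) : ℝ) - κ) := by
      rw [pow_succ] at hη; linarith
    obtain ⟨η1, h2, h3⟩ := exists_between h1
    exact St_succ (n := r + 2 + j) (by omega) hκ (η := η1) (by linarith) (ih h3)

theorem final {k n : ℕ} {κ η : ℝ} (hκ : 0 ≤ κ) (hη : 1 + κ < η) (h : St k n κ η) {c : ℝ}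
    (hc : 0 < c) : ∀ᵐ l : Fin n → ℝ, (∀ j, 0 < l j) → ∀ᶠ N : ℝ in atTop,
      ∃ x : Fin n → ℕ, (∀ i, 0 < x i) ∧ |∑ i, l i * (x i : ℝ) ^ k - N| < c * N ^ (-κ) := by
  filter_upwards [h (c / 2) (by positivity)] with l hl hpos
  have hB := hl hpos
  unfold Blk at hB
  have hbig : ∀ᶠ i : ℕ in atTop, 4 * 2 ^ κ / c + 1 ≤ ((2 : ℝ) ^ i) ^ (η - 1 - κ) := by
    have h1 : Tendsto (fun i : ℕ => (2 : ℝ) ^ i) atTop atTop :=
      tendsto_pow_atTop_atTop_of_one_lt (by norm_num)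
    exact ((tendsto_rpow_atTop (by linarith : 0 < η - 1 - κ)).comp h1).eventually_ge_atTop _
  have hcb : ∀ᶠ i : ℕ in atTop, c ≤ (2 : ℝ) ^ i :=
    (tendsto_pow_atTop_atTop_of_one_lt (by norm_num : (1 : ℝ) < 2)).eventually_ge_atTop _
  obtain ⟨i0, hi0⟩ := eventually_atTop.mp (hB.and (hbig.and hcb))
  filter_upwards [eventually_ge_atTop ((2 : ℝ) ^ (i0 + 1))] with N hN
  by_contra hcon
  push Not at hcon
  have hN1 : 1 ≤ N := le_trans (one_le_pow₀ (by norm_num)) hN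
  have hN0 : 0 < N := by linarith
  obtain ⟨i, hia, hib⟩ := exists_nat_pow_near hN1 (by norm_num : (1 : ℝ) < 2)
  have hi : i0 ≤ i := by
    have h2 := lt_of_le_of_lt hN hib
    have h3 := (pow_lt_pow_iff_right₀ (by norm_num : (1 : ℝ) < 2)).mp h2
    omega
  obtain ⟨b1, b2, b3⟩ := hi0 i hi
  obtain ⟨b1', -, -⟩ := hi0 (i + 1) (by omega)
  set q : ℝ := (2 : ℝ) ^ i with hq
  have hq0 : 0 < q := by positivity
  set δ : ℝ := c / 2 * N ^ (-κ) with hδ
  have hδ0 : 0 < δ := by positivity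
  have hδc : δ ≤ q := by
    have h1 : N ^ (-κ) ≤ 1 := Real.rpow_le_one_of_one_le_of_nonpos hN1 (by linarith)
    have : δ ≤ c / 2 * 1 := mul_le_mul_of_nonneg_left h1 (by positivity)
    linarith
  have e2 : (2 : ℝ) ^ (i + 1) = 2 * q := by rw [pow_succ, hq]; ring
  have e4 : (2 : ℝ) ^ (i + 1 + 1) = 4 * q := by rw [pow_succ, pow_succ, hq]; ring
  rw [e2] at b1 b1' hib
  rw [e4] at b1'
  have hsub : Set.Icc N (N + δ) ⊆ (Exc k n κ (c / 2) l ∩ Set.Icc q (2 * q)) ∪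
      (Exc k n κ (c / 2) l ∩ Set.Icc (2 * q) (4 * q)) := by
    rintro N' ⟨ha, hb⟩
    have hE : N' ∈ Exc k n κ (c / 2) l := by
      refine ⟨by linarith, fun x hx => ?_⟩
      have h1 := hcon x hx
      have h2 : N' ^ (-κ) ≤ N ^ (-κ) := Real.rpow_le_rpow_of_nonpos hN0 ha (by linarith)
      have h3 : |∑ i, l i * (x i : ℝ) ^ k - N| ≤ |∑ i, l i * (x i : ℝ) ^ k - N'| + |N' - N| := by
        have := abs_add_le (∑ i, l i * (x i : ℝ) ^ k - N') (N' - N)
        rwa [sub_add_sub_cancel] at this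
      have h4 : |N' - N| ≤ δ := by rw [abs_of_nonneg (by linarith)]; linarith
      have h5 : c / 2 * N' ^ (-κ) ≤ c / 2 * N ^ (-κ) := mul_le_mul_of_nonneg_left h2 (by positivity)
      have h6 : c * N ^ (-κ) = δ + c / 2 * N ^ (-κ) := by rw [hδ]; ring
      linarith
    rcases le_total N' (2 * q) with h | h
    · exact Or.inl ⟨hE, by linarith, h⟩
    · exact Or.inr ⟨hE, h, by linarith⟩
  have hvol : ENNReal.ofReal δ ≤ ENNReal.ofReal (q ^ (1 - η)) + ENNReal.ofReal ((2 * q) ^ (1 - η)) := by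
    calc ENNReal.ofReal δ = volume (Set.Icc N (N + δ)) := by
          rw [Real.volume_Icc]; congr 1; ring
      _ ≤ _ := measure_mono hsub
      _ ≤ _ := measure_union_le _ _
      _ ≤ _ := add_le_add b1 b1'
  rw [← ENNReal.ofReal_add (by positivity) (by positivity),
    ENNReal.ofReal_le_ofReal_iff (by positivity)] at hvol
  have h7 : (2 * q) ^ (1 - η) ≤ q ^ (1 - η) :=
    Real.rpow_le_rpow_of_nonpos hq0 (by linarith) (by linarith)
  have h8 : c / 2 * ((2 : ℝ) ^ (-κ) * q ^ (-κ)) ≤ δ := by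
    rw [hδ, ← Real.mul_rpow (by norm_num) hq0.le]
    apply mul_le_mul_of_nonneg_left _ (by positivity)
    exact Real.rpow_le_rpow_of_nonpos hN0 hib.le (by linarith)
  have h9 : c / 2 * ((2 : ℝ) ^ (-κ) * q ^ (-κ)) ≤ 2 * q ^ (1 - η) := by linarith
  have h10 : q ^ (-κ) = q ^ (η - 1 - κ) * q ^ (1 - η) := by
    rw [← Real.rpow_add hq0]; congr 1; ring
  rw [h10, Real.rpow_neg (by norm_num : (0 : ℝ) ≤ 2)] at h9
  have h11 : c / 2 * (((2 : ℝ) ^ κ)⁻¹ * (q ^ (η - 1 - κ) * q ^ (1 - η))) =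
      (c / 2 * ((2 : ℝ) ^ κ)⁻¹ * q ^ (η - 1 - κ)) * q ^ (1 - η) := by ring
  rw [h11] at h9
  have h12 := le_of_mul_le_mul_right h9 (by positivity)
  have h13 : c / 2 * ((2 : ℝ) ^ κ)⁻¹ * (4 * 2 ^ κ / c + 1) ≤ 2 :=
    le_trans (mul_le_mul_of_nonneg_left b2 (by positivity)) h12
  have h14 : c / 2 * ((2 : ℝ) ^ κ)⁻¹ * (4 * 2 ^ κ / c + 1) = 2 + c / 2 * ((2 : ℝ) ^ κ)⁻¹ := by
    field_simp
    ring
  rw [h14] at h13
  have : 0 < c / 2 * ((2 : ℝ) ^ κ)⁻¹ := by positivity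
  linarith

end Pool.Agent.X114.MV
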